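import Mathlib

/-!
# Averages of Galois conjugates of roots of unity
-/

open scoped Classical

namespace StarkSharp

/-- sum of the powers of a root of unity -/
theorem geom_root {w : ℂ} {n : ℕ} (hw : w ^ n = 1) :
    ∑ t ∈ Finset.range n, w ^ t = if w = 1 then (n : ℂ) else 0 := by
  split_ifs with h
  · rw [h]
    simp
  · have h3 := geom_sum_mul w n
    rw [hw, sub_self] at h3
    rcases mul_eq_zero.1 h3 with h4 | h4
    · exact h4
    · exact absurd (sub_eq_zero.1 h4) h

/-- **Averages.**  `N` even, `p` a prime dividing `N`.  There is a finite nonempty set `U` of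
exponents prime to `N` such that the average of `z^u`, `u ∈ U`, is `z` if `p` does not divide the
order of `z²`, and is in general a combination of functions `z^s 1[z^m = 1]`, `s` odd, `m` even,
which do not see the `p`-part. -/
theorem exists_avg (N p : ℕ) (hN : 0 < N) (h2 : 2 ∣ N) (hp : p.Prime) (hpN : p ∣ N) :
    ∃ (U : Finset ℕ) (k : ℕ) (q : Fin k → ℚ) (s m : Fin k → ℕ) (M : ℕ),
      U.Nonempty ∧ (∀ u ∈ U, u.Coprime N) ∧
      (∀ z : ℂ, z ^ N = 1 → ¬ p ∣ orderOf (z ^ 2) → ∀ u ∈ U, z ^ u = z) ∧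
      (∀ i, Odd (s i) ∧ Even (m i)) ∧ ¬ p ∣ M ∧
      (∀ i, ∀ z : ℂ, z ^ N = 1 → z ^ (m i) = 1 → ((z ^ (s i)) ^ 2) ^ M = 1) ∧
      ∀ z : ℂ, z ^ N = 1 → (∑ u ∈ U, z ^ u) / (U.card : ℂ) =
        ∑ i, (q i : ℂ) * (if z ^ (m i) = 1 then z ^ (s i) else 0) := by
  obtain ⟨a, M, hM, hNM⟩ := Nat.exists_eq_pow_mul_and_not_dvd hN.ne' p hp.ne_one
  have hp0 : 0 < p := hp.pos
  have hM0 : 0 < M := Nat.pos_of_ne_zero (by rintro rfl; exact hM (dvd_zero p))
  have ha : a ≠ 0 := by
    rintro rfl
    rw [pow_zero, one_mul] at hNM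
    exact hM (hNM ▸ hpN)
  obtain ⟨a, rfl⟩ := Nat.exists_eq_succ_of_ne_zero ha
  have hcop : p.Coprime M := (Nat.Prime.coprime_iff_not_dvd hp).2 hM
  by_cases hp2 : p = 2
  · -- the prime 2
    subst hp2
    set U : Finset ℕ := (Finset.range (2 ^ a)).image fun t => 1 + 2 * M * t with hU
    have hinj : Set.InjOn (fun t => 1 + 2 * M * t) (Finset.range (2 ^ a) : Set ℕ) := by
      intro x _ y _ hxy
      have h3 : 2 * M * x = 2 * M * y := Nat.add_left_cancel hxy
      exact Nat.eq_of_mul_eq_mul_left (by positivity) h3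
    have hcard : U.card = 2 ^ a := by
      rw [hU, Finset.card_image_of_injOn hinj, Finset.card_range]
    refine ⟨U, 1, fun _ => 1, fun _ => 1, fun _ => 2 * M, M, ?_, ?_, ?_, ?_, hM, ?_, ?_⟩
    · rw [← Finset.card_pos, hcard]
      positivity
    · intro u hu
      obtain ⟨t, -, rfl⟩ := Finset.mem_image.1 hu
      rw [hNM]
      apply Nat.Coprime.mul_right
      · apply Nat.Coprime.pow_right
        rw [Nat.coprime_two_right]
        exact ⟨M * t, by ring⟩
      · rw [show 1 + 2 * M * t = 1 + M * (2 * t) by ring]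
        simp
    · intro z hz hz2 u hu
      obtain ⟨t, -, rfl⟩ := Finset.mem_image.1 hu
      have h4 : orderOf (z ^ 2) ∣ M := by
        have h5 : orderOf (z ^ 2) ∣ 2 ^ (a + 1) * M := by
          apply orderOf_dvd_of_pow_eq_one
          rw [← pow_mul, mul_comm, pow_mul, ← hNM, hz, one_pow]
        refine Nat.Coprime.dvd_of_dvd_mul_left ?_ h5
        exact Nat.Coprime.pow_right _ (((Nat.Prime.coprime_iff_not_dvd hp).2 hz2).symm)
      have h6 : (z ^ 2) ^ M = 1 := orderOf_dvd_iff_pow_eq_one.1 h4
      rw [pow_add, pow_one, pow_mul, pow_mul, h6, one_pow, mul_one]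
    · intro i
      exact ⟨odd_one, even_two_mul M⟩
    · intro i z _ hz
      rw [pow_one, ← pow_mul]
      exact hz
    · intro z hz
      rw [hcard, hU, Finset.sum_image (fun x hx y hy h => hinj hx hy h)]
      have h7 : ∑ t ∈ Finset.range (2 ^ a), z ^ (1 + 2 * M * t) =
          z * ∑ t ∈ Finset.range (2 ^ a), (z ^ (2 * M)) ^ t := by
        rw [Finset.mul_sum]
        refine Finset.sum_congr rfl fun t _ => ?_
        rw [pow_add, pow_one, pow_mul]
      have h8 : (z ^ (2 * M)) ^ (2 ^ a) = 1 := by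
        rw [← pow_mul, show 2 * M * 2 ^ a = 2 ^ (a + 1) * M by ring, ← hNM, hz]
      rw [h7, geom_root h8, Fin.sum_univ_one]
      push_cast
      split_ifs with h9
      · have : ((2 : ℂ) ^ a) ≠ 0 := pow_ne_zero _ two_ne_zero
        field_simp
      · simp
  · -- odd primes
    have hMe : Even M := by
      rw [hNM] at h2
      have h3 : (2 : ℕ).Coprime (p ^ (a + 1)) := by
        apply Nat.Coprime.pow_right
        rw [Nat.coprime_primes Nat.prime_two hp]
        exact fun h => hp2 h.symm
      exact even_iff_two_dvd.2 (h3.dvd_of_dvd_mul_left h2)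
    -- the residue `t₀`
    obtain ⟨t₀, ht₀, hpt₀⟩ : ∃ t₀ < p, p ∣ 1 + M * t₀ := by
      obtain ⟨y, hy⟩ := Nat.exists_mul_mod_eq_one_of_coprime hcop.symm hp.one_lt
      refine ⟨((p - 1) * y) % p, Nat.mod_lt _ hp0, ?_⟩
      rw [← Nat.modEq_zero_iff_dvd]
      have h3 : M * (((p - 1) * y) % p) ≡ (p - 1) * 1 [MOD p] := by
        calc M * (((p - 1) * y) % p) ≡ M * ((p - 1) * y) [MOD p] :=
              (Nat.mod_modEq _ _).mul_left M
          _ = (p - 1) * (M * y) := by ring
          _ ≡ (p - 1) * 1 [MOD p] := by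
              apply Nat.ModEq.mul_left
              unfold Nat.ModEq
              rw [hy.2, Nat.mod_eq_of_lt hp.one_lt]
      calc 1 + M * (((p - 1) * y) % p) ≡ 1 + (p - 1) * 1 [MOD p] := h3.add_left 1
        _ = p := by omega
        _ ≡ 0 [MOD p] := by simp [Nat.ModEq]
    have hdiv : ∀ t : ℕ, p ∣ 1 + M * t ↔ t % p = t₀ := by
      intro t
      constructor
      · intro h
        have h3 : 1 + M * t ≡ 1 + M * t₀ [MOD p] :=
          ((Nat.modEq_zero_iff_dvd).2 h).trans ((Nat.modEq_zero_iff_dvd).2 hpt₀).symm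
        have h4 : M * t ≡ M * t₀ [MOD p] := Nat.ModEq.add_left_cancel' 1 h3
        have h5 : t ≡ t₀ [MOD p] := Nat.ModEq.cancel_left_of_coprime hcop h4
        have h6 : t % p = t₀ % p := h5
        rw [h6, Nat.mod_eq_of_lt ht₀]
      · intro h
        have h5 : t ≡ t₀ [MOD p] := by
          unfold Nat.ModEq
          rw [h, Nat.mod_eq_of_lt ht₀]
        rw [← Nat.modEq_zero_iff_dvd]
        exact ((h5.mul_left M).add_left 1).trans ((Nat.modEq_zero_iff_dvd).2 hpt₀)
    set R : Finset ℕ := (Finset.range (p ^ (a + 1))).filter fun t => ¬ p ∣ 1 + M * t with hR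
    have hinj : Set.InjOn (fun t => 1 + M * t) (R : Set ℕ) := by
      intro x _ y _ hxy
      have h3 : M * x = M * y := Nat.add_left_cancel hxy
      exact Nat.eq_of_mul_eq_mul_left hM0 h3
    set U : Finset ℕ := R.image fun t => 1 + M * t with hU
    -- sums over the complement
    have hcomp : ∀ F : ℕ → ℂ, ∑ t ∈ (Finset.range (p ^ (a + 1))).filter
        (fun t => p ∣ 1 + M * t), F t = ∑ t ∈ Finset.range (p ^ a), F (t₀ + p * t) := by
      intro F
      symm
      refine Finset.sum_bij (fun t _ => t₀ + p * t) ?_ ?_ ?_ ?_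
      · intro t ht
        rw [Finset.mem_range] at ht
        rw [Finset.mem_filter, Finset.mem_range, hdiv]
        refine ⟨?_, ?_⟩
        · calc t₀ + p * t < p + p * t := by omega
            _ = p * (t + 1) := by ring
            _ ≤ p * p ^ a := Nat.mul_le_mul_left p ht
            _ = p ^ (a + 1) := by ring
        · rw [Nat.add_mul_mod_self_left, Nat.mod_eq_of_lt ht₀]
      · intro x _ y _ h
        exact Nat.eq_of_mul_eq_mul_left hp0 (Nat.add_left_cancel h)
      · intro t ht
        rw [Finset.mem_filter, Finset.mem_range, hdiv] at ht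
        refine ⟨t / p, ?_, ?_⟩
        · rw [Finset.mem_range]
          apply Nat.div_lt_of_lt_mul
          calc t < p ^ (a + 1) := ht.1
            _ = p * p ^ a := by ring
        · have := Nat.mod_add_div t p
          rw [ht.2] at this
          exact this
      · intro t _
        rfl
    have hcardC : ((Finset.range (p ^ (a + 1))).filter fun t => p ∣ 1 + M * t).card = p ^ a := by
      have h3 := hcomp fun _ => 1
      rw [Finset.sum_const, Finset.sum_const, Finset.card_range, nsmul_eq_mul, nsmul_eq_mul,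
        mul_one, mul_one] at h3
      exact_mod_cast h3
    have hcardR : R.card + p ^ a = p ^ (a + 1) := by
      have h3 := Finset.card_filter_add_card_filter_not (s := Finset.range (p ^ (a + 1)))
        (fun t => p ∣ 1 + M * t)
      rw [hcardC, Finset.card_range] at h3
      rw [hR]
      omega
    have hcard : U.card = R.card := by
      rw [hU, Finset.card_image_of_injOn hinj]
    have hpa : 0 < p ^ a := by positivity
    have hRpos : 0 < R.card := by
      have h3 : p ^ a * 2 ≤ p ^ a * p := Nat.mul_le_mul_left _ hp.two_le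
      have h4 : p ^ (a + 1) = p ^ a * p := pow_succ p a
      omega
    have hs : Odd (1 + M * t₀) := by
      rw [add_comm]
      exact (hMe.mul_right t₀).add_one
    refine ⟨U, 2, ![(p ^ (a + 1) : ℚ) / R.card, -((p ^ a : ℚ) / R.card)], ![1, 1 + M * t₀],
      ![M, M * p], M, ?_, ?_, ?_, ?_, hM, ?_, ?_⟩
    · rw [← Finset.card_pos, hcard]
      exact hRpos
    · intro u hu
      obtain ⟨t, ht, rfl⟩ := Finset.mem_image.1 hu
      rw [hR, Finset.mem_filter] at ht
      rw [hNM]
      apply Nat.Coprime.mul_right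
      · apply Nat.Coprime.pow_right
        exact ((Nat.Prime.coprime_iff_not_dvd hp).2 ht.2).symm
      · simp
    · intro z hz hz2 u hu
      obtain ⟨t, -, rfl⟩ := Finset.mem_image.1 hu
      have h4 : orderOf (z ^ 2) ∣ M := by
        have h5 : orderOf (z ^ 2) ∣ p ^ (a + 1) * M := by
          apply orderOf_dvd_of_pow_eq_one
          rw [← pow_mul, mul_comm, pow_mul, ← hNM, hz, one_pow]
        refine Nat.Coprime.dvd_of_dvd_mul_left ?_ h5
        exact Nat.Coprime.pow_right _ (((Nat.Prime.coprime_iff_not_dvd hp).2 hz2).symm)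
      have h6 : z ^ (2 * M) = 1 := by
        rw [pow_mul]
        exact orderOf_dvd_iff_pow_eq_one.1 h4
      -- `orderOf z` divides `2M` and `p^(a+1) M`, hence `M`
      have h7 : orderOf z ∣ Nat.gcd (2 * M) (p ^ (a + 1) * M) :=
        Nat.dvd_gcd (orderOf_dvd_of_pow_eq_one h6) (orderOf_dvd_of_pow_eq_one (hNM ▸ hz))
      rw [Nat.gcd_mul_right] at h7
      have h8 : Nat.gcd 2 (p ^ (a + 1)) = 1 := by
        apply Nat.Coprime.pow_right
        rw [Nat.coprime_primes Nat.prime_two hp]
        exact fun h => hp2 h.symm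
      rw [h8, one_mul] at h7
      have h9 : z ^ M = 1 := orderOf_dvd_iff_pow_eq_one.1 h7
      rw [pow_add, pow_one, pow_mul, h9, one_pow, mul_one]
    · intro i
      fin_cases i
      · exact ⟨odd_one, hMe⟩
      · exact ⟨hs, hMe.mul_right p⟩
    · intro i z _ hz
      fin_cases i
      · have hz : z ^ M = 1 := hz
        show ((z ^ 1) ^ 2) ^ M = 1
        rw [pow_one, ← pow_mul, mul_comm, pow_mul, hz, one_pow]
      · have hz : z ^ (M * p) = 1 := hz
        show ((z ^ (1 + M * t₀)) ^ 2) ^ M = 1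
        obtain ⟨c, hc⟩ := hpt₀
        rw [hc, ← pow_mul, ← pow_mul, show p * c * (2 * M) = M * p * (c * 2) by ring, pow_mul, hz,
          one_pow]
    · intro z hz
      have hR0 : (R.card : ℂ) ≠ 0 := by exact_mod_cast hRpos.ne'
      have h7 : ∑ u ∈ U, z ^ u = ∑ t ∈ R, z ^ (1 + M * t) := by
        rw [hU, Finset.sum_image (fun x hx y hy h => hinj hx hy h)]
      have h8 : ∑ t ∈ R, z ^ (1 + M * t) = (∑ t ∈ Finset.range (p ^ (a + 1)), z ^ (1 + M * t)) -
          ∑ t ∈ (Finset.range (p ^ (a + 1))).filter (fun t => p ∣ 1 + M * t),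
            z ^ (1 + M * t) := by
        rw [← Finset.sum_filter_add_sum_filter_not (Finset.range (p ^ (a + 1)))
          (fun t => p ∣ 1 + M * t)]
        ring
      have h9 : ∑ t ∈ Finset.range (p ^ (a + 1)), z ^ (1 + M * t) =
          if z ^ M = 1 then (p : ℂ) ^ (a + 1) * z else 0 := by
        have e1 : ∑ t ∈ Finset.range (p ^ (a + 1)), z ^ (1 + M * t) =
            z * ∑ t ∈ Finset.range (p ^ (a + 1)), (z ^ M) ^ t := by
          rw [Finset.mul_sum]
          refine Finset.sum_congr rfl fun t _ => ?_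
          rw [pow_add, pow_one, pow_mul]
        have e2 : (z ^ M) ^ (p ^ (a + 1)) = 1 := by
          rw [← pow_mul, mul_comm, ← hNM, hz]
        rw [e1, geom_root e2]
        push_cast
        split_ifs <;> ring
      have h10 : ∑ t ∈ (Finset.range (p ^ (a + 1))).filter (fun t => p ∣ 1 + M * t),
          z ^ (1 + M * t) = if z ^ (M * p) = 1 then (p : ℂ) ^ a * z ^ (1 + M * t₀) else 0 := by
        rw [hcomp]
        have e1 : ∑ t ∈ Finset.range (p ^ a), z ^ (1 + M * (t₀ + p * t)) =
            z ^ (1 + M * t₀) * ∑ t ∈ Finset.range (p ^ a), (z ^ (M * p)) ^ t := by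
          rw [Finset.mul_sum]
          refine Finset.sum_congr rfl fun t _ => ?_
          rw [← pow_mul, ← pow_add]
          congr 1
          ring
        have e2 : (z ^ (M * p)) ^ (p ^ a) = 1 := by
          rw [← pow_mul, show M * p * p ^ a = p ^ (a + 1) * M by ring, ← hNM, hz]
        rw [e1, geom_root e2]
        push_cast
        split_ifs <;> ring
      rw [hcard, h7, h8, h9, h10, Fin.sum_univ_two]
      simp only [Matrix.cons_val_zero, Matrix.cons_val_one, pow_one]
      push_cast
      split_ifs <;> field_simp <;> ring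

end StarkSharp
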