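import Pool.Agent.Lib_helper3.SM.Lift
import Pool.Agent.Lib_helper3.SH.Field
import Pool.Agent.Stark.LINF

/-!
# Number fields: linear characters of composite order, and ramified linear characters
-/

open scoped Classical commutatorElement
open NumberField IsDedekindDomain

namespace StarkSharp

section Defs

variable (N : Type) [Field N] [NumberField N]

/-- The group generated by all characters of `Gal(N/ℚ)` induced from linear characters of the
groups `Gal(N/F)`, `F` any subfield of `N`, whose order has at most `r` prime factors. -/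
noncomputable def inducedFewPrimes (r : ℕ) : AddSubgroup ((N ≃ₐ[ℚ] N) → ℂ) :=
  AddSubgroup.closure {f | ∃ (F : IntermediateField ℚ N) (ψ : F.fixingSubgroup →* ℂˣ),
    (orderOf ψ).primeFactors.card ≤ r ∧
      f = indFun F.fixingSubgroup (extF F.fixingSubgroup fun h => (ψ h : ℂ))}

/-- The group generated by all characters of `Gal(N/ℚ)` induced from linear characters of the
groups `Gal(N/F)`, `F` any subfield of `N`, which are trivial on the inertia groups of all primes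
of `N` above `l`. -/
noncomputable def inducedUnramified (l : ℕ) : AddSubgroup ((N ≃ₐ[ℚ] N) → ℂ) :=
  AddSubgroup.closure {f | ∃ (F : IntermediateField ℚ N) (ψ : F.fixingSubgroup →* ℂˣ),
    (∀ (W : HeightOneSpectrum (𝓞 N)) (h : F.fixingSubgroup), (l : 𝓞 N) ∈ W.asIdeal →
      StarkC.FrobPow N W 1 (h : N ≃ₐ[ℚ] N) → ψ h = 1) ∧
      f = indFun F.fixingSubgroup (extF F.fixingSubgroup fun h => (ψ h : ℂ))}

/-- The group generated by the characters of the representations `ρ` of `Gal(N/ℚ)` which are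
totally odd, or have a metabelian image, or are trivial at all automorphisms of `N` which fix the
elements of `E`. -/
def oddMetabelianOrFrom {L : Type} [Field L] [NumberField L] [Algebra L N]
    (E : IntermediateField ℚ L) : AddSubgroup ((N ≃ₐ[ℚ] N) → ℂ) :=
  AddSubgroup.closure {f | ∃ (V : Type) (_ : AddCommGroup V) (_ : Module ℂ V)
    (_ : Module.Finite ℂ V) (ρ : Representation ℂ (N ≃ₐ[ℚ] N) V),
      (IsTotallyOdd ρ ∨ (∀ g ∈ derivedSeries (N ≃ₐ[ℚ] N) 2, ρ g = 1) ∨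
        (∀ g : N ≃ₐ[ℚ] N, (∀ x ∈ E, g (algebraMap L N x) = algebraMap L N x) → ρ g = 1)) ∧
        f = ρ.character}

end Defs

/-- **Group theory**: no nonzero multiple of a function with a nonzero mixed difference at `g` is a
combination of inductions of linear characters whose order has at most `r` prime factors, a rational
valued virtual character, and a function which is constant on the generators of `⟨g⟩`. -/
theorem group_mix {G : Type} [Group G] [Fintype G] {r : ℕ} (g : G) {u : Fin (r + 1) → ℕ}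
    (hu : Adm (orderOf g) u) (χ a b c : G → ℂ) (hχ : mixD χ g u ≠ 0)
    (ha : a ∈ AddSubgroup.closure {f : G → ℂ | ∃ (H : Subgroup G) (ψ : H →* ℂˣ),
      (orderOf ψ).primeFactors.card ≤ r ∧ f = indFun H (extF H fun h => (ψ h : ℂ))})
    (hb : b ∈ virtualChars G) (hbq : ∀ g, ∃ r : ℚ, b g = r)
    (hc : ∀ a : ℕ, a.Coprime (orderOf g) → c (g ^ a) = c g) (m : ℤ) (hm : m ≠ 0) :
    (fun x => (m : ℂ) * χ x) ≠ a + b + c := by
  intro h
  have h1 : mixD (a + b + c) g u = 0 := by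
    rw [mixD_add, mixD_add, mixD_rat hb hbq g hu, mixD_const hu hc, add_zero, add_zero]
    refine mixD_closure ?_ ha
    rintro _ ⟨H, ψ, hψ, rfl⟩
    exact mixD_few H ψ hψ g hu
  rw [← h, mixD_smul] at h1
  rcases mul_eq_zero.1 h1 with h2 | h2
  · exact hm (by exact_mod_cast h2)
  · exact hχ h2

section Lift

variable {L N : Type} [Field L] [NumberField L] [Field N] [NumberField N] [Algebra L N]
  [IsGalois ℚ L] [IsGalois ℚ N]

omit [IsGalois ℚ N] in
theorem restrict_comm (g : N ≃ₐ[ℚ] N) (y : L) :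
    algebraMap L N (AlgEquiv.restrictNormalHom L g y) = g (algebraMap L N y) :=
  AlgEquiv.restrictNormal_commutes g L y

theorem exists_conj_lift {c : L ≃ₐ[ℚ] L} (hc : IsComplexConj c) :
    ∃ c' : N ≃ₐ[ℚ] N, IsComplexConj c' ∧ AlgEquiv.restrictNormalHom L c' = c := by
  obtain ⟨Φ, hΦ⟩ := hc
  let _ : Algebra L ℂ := Φ.toAlgebra
  let Ψ : N →ₐ[L] ℂ := IsAlgClosed.lift
  have hΨ : ∀ y : L, (Ψ : N →+* ℂ) (algebraMap L N y) = Φ y := fun y => Ψ.commutes y
  obtain ⟨σ, hσ⟩ := ComplexEmbedding.exists_comp_symm_eq_of_comp_eq (k := ℚ) (Ψ : N →+* ℂ)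
    (ComplexEmbedding.conjugate (Ψ : N →+* ℂ)) (Subsingleton.elim _ _)
  refine ⟨σ.symm, ⟨(Ψ : N →+* ℂ), hσ.symm⟩, ?_⟩
  apply AlgEquiv.ext
  intro y
  apply Φ.injective
  rw [← hΨ, restrict_comm]
  have h1 := congrArg (fun z : N →+* ℂ => z (algebraMap L N y)) hσ
  have h2 : (Ψ : N →+* ℂ) (σ.symm (algebraMap L N y)) = star (Φ y) := by
    rw [← hΨ]
    exact h1
  rw [h2]
  have h3 := congrArg (fun z : L →+* ℂ => z y) hΦ
  exact h3

theorem conjProducts_le_map :
    conjProducts L ≤ (conjProducts N).map (AlgEquiv.restrictNormalHom (F := ℚ) L) := by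
  unfold conjProducts
  rw [Subgroup.closure_le]
  rintro _ ⟨c₁, c₂, h₁, h₂, rfl⟩
  obtain ⟨c₁', h₁', e₁⟩ := exists_conj_lift (N := N) h₁
  obtain ⟨c₂', h₂', e₂⟩ := exists_conj_lift (N := N) h₂
  exact ⟨c₁' * c₂', Subgroup.subset_closure ⟨c₁', c₂', h₁', h₂', rfl⟩, by rw [map_mul, e₁, e₂]⟩

theorem exists_comm_lift {g : L ≃ₐ[ℚ] L} (hg : g ∈ ⁅conjProducts L, conjProducts L⁆) :
    ∃ g' ∈ ⁅conjProducts N, conjProducts N⁆, AlgEquiv.restrictNormalHom L g' = g := by
  have h1 := Subgroup.commutator_mono (conjProducts_le_map (L := L) (N := N))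
    (conjProducts_le_map (L := L) (N := N)) hg
  rw [← Subgroup.map_commutator] at h1
  exact h1

end Lift

section Known

variable {N : Type} [Field N] [NumberField N] [IsGalois ℚ N]

theorem conjProducts_le_commutator : conjProducts N ≤ derivedSeries (N ≃ₐ[ℚ] N) 1 := by
  unfold conjProducts
  rw [Subgroup.closure_le]
  rintro _ ⟨c₁, c₂, h₁, h₂, rfl⟩
  obtain ⟨g, rfl⟩ := exists_conjugate h₁ h₂
  have h3 : c₁⁻¹ = c₁ := inv_eq_of_mul_eq_one_right (complexConj_sq h₁)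
  have e : c₁ * (g⁻¹ * c₁ * g) = ⁅c₁, g⁻¹⁆ := by
    rw [commutatorElement_def, h3, inv_inv]
    group
  rw [SetLike.mem_coe, e, derivedSeries_one]
  exact Subgroup.commutator_mem_commutator (Subgroup.mem_top _) (Subgroup.mem_top _)

theorem comm_le_second : ⁅conjProducts N, conjProducts N⁆ ≤ derivedSeries (N ≃ₐ[ℚ] N) 2 := by
  rw [derivedSeries_succ]
  exact Subgroup.commutator_mono conjProducts_le_commutator conjProducts_le_commutator

theorem known_const {L : Type} [Field L] [NumberField L] [Algebra L N]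
    (E : IntermediateField ℚ L) {f : (N ≃ₐ[ℚ] N) → ℂ} (hf : f ∈ oddMetabelianOrFrom N E)
    {g : N ≃ₐ[ℚ] N} (hg : g ∈ ⁅conjProducts N, conjProducts N⁆)
    (hE : ∀ x ∈ E, g (algebraMap L N x) = algebraMap L N x) (a : ℕ) : f (g ^ a) = f g := by
  induction hf using AddSubgroup.closure_induction with
  | mem x hx =>
    obtain ⟨V, _, _, _, ρ, hρ, rfl⟩ := hx
    have h1 : ρ g = 1 := by
      rcases hρ with hρ | hρ | hρ
      · exact rho_conjProducts ρ (Or.inl hρ) g (Subgroup.commutator_le_left _ _ hg)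
      · exact hρ g (comm_le_second hg)
      · exact hρ g hE
    unfold Representation.character
    rw [map_pow, h1, one_pow]
  | zero => rfl
  | add x y _ _ hx hy => rw [Pi.add_apply, Pi.add_apply, hx, hy]
  | neg x _ hx => rw [Pi.neg_apply, Pi.neg_apply, hx]

omit [IsGalois ℚ N] in
theorem unramified_const {l : ℕ} {f : (N ≃ₐ[ℚ] N) → ℂ} (hf : f ∈ inducedUnramified N l)
    {W : HeightOneSpectrum (𝓞 N)} (hl : (l : 𝓞 N) ∈ W.asIdeal) {g : N ≃ₐ[ℚ] N}
    (hg : StarkC.FrobPow N W 1 g) (a : ℕ) (ha : a.Coprime (orderOf g)) : f (g ^ a) = f g := by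
  induction hf using AddSubgroup.closure_induction with
  | mem x hx =>
    obtain ⟨F, ψ, hψ, rfl⟩ := hx
    refine ind_trivial_const F.fixingSubgroup ψ g ?_ a ha
    intro x hx
    -- the prime `x⁻¹ W`
    have hgW := (StarkC.LINF.frobPow_iff W 1 g).1 hg
    have hprime : (Ideal.comap (MulSemiringAction.toRingEquiv (N ≃ₐ[ℚ] N) (𝓞 N) x)
        W.asIdeal).IsPrime := Ideal.comap_isPrime _ _
    have hmem : ∀ z : 𝓞 N, z ∈ Ideal.comap (MulSemiringAction.toRingEquiv (N ≃ₐ[ℚ] N) (𝓞 N) x)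
        W.asIdeal ↔ x • z ∈ W.asIdeal := fun z => Iff.rfl
    have hne : Ideal.comap (MulSemiringAction.toRingEquiv (N ≃ₐ[ℚ] N) (𝓞 N) x)
        W.asIdeal ≠ ⊥ := by
      intro h0
      apply W.ne_bot
      rw [eq_bot_iff]
      intro z hz
      have h1 : x⁻¹ • z ∈ Ideal.comap (MulSemiringAction.toRingEquiv (N ≃ₐ[ℚ] N) (𝓞 N) x)
          W.asIdeal := by
        rw [hmem, smul_inv_smul]
        exact hz
      rw [h0, Ideal.mem_bot] at h1
      have h2 : x • (x⁻¹ • z) = x • (0 : 𝓞 N) := by rw [h1]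
      rw [smul_inv_smul, smul_zero] at h2
      rw [Ideal.mem_bot]
      exact h2
    refine hψ ⟨_, hprime, hne⟩ ⟨x⁻¹ * g * x, hx⟩ ?_ ?_
    · show (l : 𝓞 N) ∈ Ideal.comap (MulSemiringAction.toRingEquiv (N ≃ₐ[ℚ] N) (𝓞 N) x) W.asIdeal
      rw [hmem]
      have : x • (l : 𝓞 N) = (l : 𝓞 N) :=
        map_natCast (MulSemiringAction.toRingEquiv (N ≃ₐ[ℚ] N) (𝓞 N) x) l
      rw [this]
      exact hl
    · rw [StarkC.LINF.frobPow_iff]
      intro z
      show (x⁻¹ * g * x : N ≃ₐ[ℚ] N) • z - z ^ 1 ∈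
        Ideal.comap (MulSemiringAction.toRingEquiv (N ≃ₐ[ℚ] N) (𝓞 N) x) W.asIdeal
      rw [hmem, smul_sub, pow_one, mul_smul, mul_smul, smul_inv_smul]
      have := hgW (x • z)
      rwa [pow_one] at this
  | zero => rfl
  | add x y _ _ hx hy => rw [Pi.add_apply, Pi.add_apply, hx, hy]
  | neg x _ hx => rw [Pi.neg_apply, Pi.neg_apply, hx]

end Known

section Main

variable {L N : Type} [Field L] [NumberField L] [Field N] [NumberField N] [Algebra L N]
  [IsGalois ℚ L] [IsGalois ℚ N]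

/-- **Linear characters of composite order cannot be removed**, whatever the bound `r` for the
number of prime factors of the order. -/
theorem few_sharp (E : IntermediateField ℚ L) (r : ℕ) (g : L ≃ₐ[ℚ] L)
    (hg : g ∈ ⁅conjProducts L, conjProducts L⁆) (hE : g ∈ E.fixingSubgroup)
    (u : Fin (r + 1) → ℕ) (hu : Adm (orderOf g) u) (χ : (L ≃ₐ[ℚ] L) → ℂ) (hχ : mixD χ g u ≠ 0)
    (a b c : (N ≃ₐ[ℚ] N) → ℂ) (ha : a ∈ inducedFewPrimes N r)
    (hb : b ∈ virtualChars (N ≃ₐ[ℚ] N)) (hbq : ∀ g, ∃ r : ℚ, b g = r)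
    (hc : c ∈ oddMetabelianOrFrom N E) (m : ℤ) (hm : m ≠ 0) :
    (fun x : N ≃ₐ[ℚ] N => (m : ℂ) * χ (AlgEquiv.restrictNormalHom L x)) ≠ a + b + c := by
  obtain ⟨g', hg', rfl⟩ := exists_comm_lift (N := N) hg
  obtain ⟨u', hu', hD⟩ := mixD_lift (AlgEquiv.restrictNormalHom (F := ℚ) (K₁ := N) L) χ g' hu
  refine group_mix g' hu' (fun x => χ (AlgEquiv.restrictNormalHom L x)) a b c (hD ▸ hχ) ?_ hb hbq
    ?_ m hm
  · refine AddSubgroup.closure_mono ?_ ha
    rintro _ ⟨F, ψ, hψ, rfl⟩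
    exact ⟨F.fixingSubgroup, ψ, hψ, rfl⟩
  · intro a _
    refine known_const E hc hg' ?_ a
    intro x hx
    rw [← restrict_comm]
    exact congrArg _ ((IntermediateField.mem_fixingSubgroup_iff E _).1 hE x hx)

/-- **Ramified linear characters cannot be removed.** -/
theorem ram_sharp (r : ℕ) (w : HeightOneSpectrum (𝓞 L)) (l : ℕ) (hl : (l : 𝓞 L) ∈ w.asIdeal)
    (g : L ≃ₐ[ℚ] L) (hg : StarkC.FrobPow L w 1 g) (u : Fin (r + 1) → ℕ)
    (hu : Adm (orderOf g) u) (χ : (L ≃ₐ[ℚ] L) → ℂ) (hχ : mixD χ g u ≠ 0)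
    (a b c : (N ≃ₐ[ℚ] N) → ℂ) (ha : a ∈ inducedFewPrimes N r)
    (hb : b ∈ virtualChars (N ≃ₐ[ℚ] N)) (hbq : ∀ g, ∃ r : ℚ, b g = r)
    (hc : c ∈ inducedUnramified N l) (m : ℤ) (hm : m ≠ 0) :
    (fun x : N ≃ₐ[ℚ] N => (m : ℂ) * χ (AlgEquiv.restrictNormalHom L x)) ≠ a + b + c := by
  have := w.isMaximal
  obtain ⟨P, hP, hlie⟩ := Ideal.exists_maximal_ideal_liesOver_of_isIntegral (S := 𝓞 N) w.asIdeal
  have hPb : P ≠ ⊥ := by
    rintro rfl
    have h1 := hlie.over
    rw [Ideal.under_bot] at h1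
    exact w.ne_bot h1
  let W : HeightOneSpectrum (𝓞 N) := ⟨P, hP.isPrime, hPb⟩
  have hW : W.under (𝓞 L) = w := by
    apply HeightOneSpectrum.ext
    exact hlie.over.symm
  obtain ⟨g', rfl, hF⟩ := StarkC.LINF.lift_frobPow (K := ℚ) (L := L) W 0 g
    (by rw [hW, pow_zero]; exact hg)
  rw [pow_zero] at hF
  have hlW : (l : 𝓞 N) ∈ W.asIdeal := by
    have h2 : (l : 𝓞 L) ∈ (W.under (𝓞 L)).asIdeal := by rw [hW]; exact hl
    have h3 : algebraMap (𝓞 L) (𝓞 N) (l : 𝓞 L) ∈ W.asIdeal := h2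
    rwa [map_natCast] at h3
  obtain ⟨u', hu', hD⟩ := mixD_lift (AlgEquiv.restrictNormalHom (F := ℚ) (K₁ := N) L) χ g' hu
  refine group_mix g' hu' (fun x => χ (AlgEquiv.restrictNormalHom L x)) a b c (hD ▸ hχ) ?_ hb hbq
    ?_ m hm
  · refine AddSubgroup.closure_mono ?_ ha
    rintro _ ⟨F, ψ, hψ, rfl⟩
    exact ⟨F.fixingSubgroup, ψ, hψ, rfl⟩
  · intro a ha
    exact unramified_const hc hlW hF a ha

end Main

end StarkSharp
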