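import Pool.Agent.Lib_helper3.SM.Rat

/-!
# Lifting the data of a mixed difference
-/

open scoped Classical

namespace StarkSharp

/-- splitting `N` along pairwise coprime factors of a divisor -/
theorem exists_split {r : ℕ} {m : Fin (r + 1) → ℕ} (hm : ∀ i j, i ≠ j → (m i).Coprime (m j))
    {N : ℕ} (hN : 0 < N) (hmN : (∏ i, m i) ∣ N) : ∃ A : Fin (r + 1) → ℕ,
      (∀ i j, i ≠ j → (A i).Coprime (A j)) ∧ N = ∏ i, A i ∧ ∀ i, m i ∣ A i := by
  -- the index of a prime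
  have hidx : ∀ p : ℕ, ∃ i : Fin (r + 1), ∀ j, p.Prime → p ∣ m j → j = i := by
    intro p
    by_cases h : ∃ i, p ∣ m i
    · obtain ⟨i, hi⟩ := h
      refine ⟨i, fun j hp hj => ?_⟩
      by_contra hne
      have h2 : p ∣ Nat.gcd (m j) (m i) := Nat.dvd_gcd hj hi
      rw [hm j i hne] at h2
      exact hp.ne_one (Nat.dvd_one.1 h2)
    · exact ⟨0, fun j _ hj => absurd ⟨j, hj⟩ h⟩
  choose idx hidx using hidx
  set A : Fin (r + 1) → ℕ := fun i => ∏ p ∈ N.primeFactors.filter (fun p => idx p = i),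
    p ^ N.factorization p with hA
  have hprod : N = ∏ i, A i := by
    rw [hA, Finset.prod_fiberwise]
    exact (Nat.prod_factorization_pow_eq_self hN.ne').symm
  have hprime : ∀ i (p : ℕ), p.Prime → p ∣ A i → idx p = i := by
    intro i p hp hpd
    rw [hA] at hpd
    obtain ⟨q, hq, hqd⟩ := (Prime.dvd_finsetProd_iff hp.prime _).1 hpd
    obtain ⟨hq1, hq2⟩ := Finset.mem_filter.1 hq
    have h3 := hp.dvd_of_dvd_pow hqd
    rw [(Nat.prime_dvd_prime_iff_eq hp (Nat.prime_of_mem_primeFactors hq1)).1 h3]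
    exact hq2
  refine ⟨A, ?_, hprod, ?_⟩
  · intro i j hij
    by_contra hne
    obtain ⟨p, hp, h1, h2⟩ := Nat.Prime.not_coprime_iff_dvd.1 hne
    exact hij ((hprime i p hp h1).symm.trans (hprime j p hp h2))
  · intro i
    have h1 : m i ∣ A i * ∏ j ∈ Finset.univ.erase i, A j := by
      rw [Finset.mul_prod_erase Finset.univ A (Finset.mem_univ i), ← hprod]
      exact (Finset.dvd_prod_of_mem m (Finset.mem_univ i)).trans hmN
    refine Nat.Coprime.dvd_of_dvd_mul_right ?_ h1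
    refine Nat.Coprime.prod_right fun j hj => ?_
    by_contra hne
    obtain ⟨p, hp, h2, h3⟩ := Nat.Prime.not_coprime_iff_dvd.1 hne
    have h4 := hidx p i hp h2
    have h5 := hprime j p hp h3
    exact (Finset.ne_of_mem_erase hj) (h5.symm.trans h4.symm)

/-- lifting of units -/
theorem lift_unit {n N : ℕ} (hN : 0 < N) (h : n ∣ N) {u : ℕ} (hu : u.Coprime n) :
    ∃ u' : ℕ, u'.Coprime N ∧ u' ≡ u [MOD n] := by
  have : NeZero N := ⟨hN.ne'⟩
  have hn : 0 < n := Nat.pos_of_dvd_of_pos h hN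
  obtain ⟨w, hw⟩ := ZMod.unitsMap_surjective h (ZMod.unitOfCoprime u hu)
  refine ⟨(w : ZMod N).val, ZMod.val_coe_unit_coprime w, ?_⟩
  rw [← ZMod.natCast_eq_natCast_iff]
  have h2 := congrArg (fun z : (ZMod n)ˣ => (z : ZMod n)) hw
  simp only [ZMod.coe_unitOfCoprime] at h2
  rw [← h2, ZMod.unitsMap_def, Units.coe_map, MonoidHom.coe_coe, ZMod.castHom_apply]
  rw [ZMod.natCast_val]

/-- lifting of a unit which is `1` on a factor -/
theorem lift_adm {n n₁ n₂ A B : ℕ} (hAB : A.Coprime B) (hA0 : 0 < A) (hn : n = n₁ * n₂)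
    (hc : n₁.Coprime n₂) (h1 : n₁ ∣ A) (h2 : n₂ ∣ B) {u : ℕ} (hu : u.Coprime n)
    (hu2 : u ≡ 1 [MOD n₂]) :
    ∃ u' : ℕ, u'.Coprime (A * B) ∧ u' ≡ u [MOD n] ∧ u' ≡ 1 [MOD B] := by
  have hu1 : u.Coprime n₁ := by
    rw [hn] at hu
    exact Nat.Coprime.coprime_mul_right_right hu
  obtain ⟨w, hw, hwu⟩ := lift_unit hA0 h1 hu1
  obtain ⟨x, hxA, hxB⟩ := Nat.chineseRemainder hAB w 1
  refine ⟨x, ?_, ?_, hxB⟩
  · apply Nat.Coprime.mul_right
    · unfold Nat.Coprime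
      rw [hxA.gcd_eq]
      exact hw
    · unfold Nat.Coprime
      rw [hxB.gcd_eq]
      exact Nat.gcd_one_left _
  · rw [hn]
    rw [← Nat.modEq_and_modEq_iff_modEq_mul hc]
    refine ⟨(hxA.of_dvd h1).trans hwu, (hxB.of_dvd h2).trans hu2.symm⟩

theorem adm_lift {r n N : ℕ} {u : Fin (r + 1) → ℕ} (hN : 0 < N) (hnN : n ∣ N) (h : Adm n u) :
    ∃ u' : Fin (r + 1) → ℕ, Adm N u' ∧ ∀ i, u' i ≡ u i [MOD n] := by
  obtain ⟨hu, m, hm, hn, hum⟩ := h
  obtain ⟨A, hA, hNA, hmA⟩ := exists_split hm hN (hn ▸ hnN)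
  have hA0 : ∀ i, 0 < A i := by
    intro i
    apply Nat.pos_of_ne_zero
    intro h0
    rw [Finset.prod_eq_zero (Finset.mem_univ i) h0] at hNA
    omega
  have key : ∀ i, ∃ x : ℕ, x.Coprime N ∧ x ≡ u i [MOD n] ∧ ∀ j, i ≠ j → x ≡ 1 [MOD A j] := by
    intro i
    have hc : (A i).Coprime (∏ j ∈ Finset.univ.erase i, A j) :=
      Nat.Coprime.prod_right fun j hj => hA i j (Finset.ne_of_mem_erase hj).symm
    have hc' : (m i).Coprime (∏ j ∈ Finset.univ.erase i, m j) :=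
      Nat.Coprime.prod_right fun j hj => hm i j (Finset.ne_of_mem_erase hj).symm
    have h2 : (∏ j ∈ Finset.univ.erase i, m j) ∣ ∏ j ∈ Finset.univ.erase i, A j :=
      Finset.prod_dvd_prod_of_dvd _ _ fun j _ => hmA j
    have h3 : u i ≡ 1 [MOD ∏ j ∈ Finset.univ.erase i, m j] := by
      refine modEq_one_of hm hum (i := i) ?_ hc'.symm
      exact ⟨m i, (Finset.prod_erase_mul Finset.univ m (Finset.mem_univ i)).symm⟩
    obtain ⟨x, hx1, hx2, hx3⟩ := lift_adm hc (hA0 i)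
      (hn.trans (Finset.mul_prod_erase Finset.univ m (Finset.mem_univ i)).symm) hc' (hmA i) h2
      (hu i) h3
    refine ⟨x, ?_, hx2, ?_⟩
    · rwa [hNA, ← Finset.mul_prod_erase Finset.univ A (Finset.mem_univ i)]
    · intro j hij
      exact hx3.of_dvd (Finset.dvd_prod_of_mem A (Finset.mem_erase.2 ⟨hij.symm, Finset.mem_univ j⟩))
  choose u' h1 h2 h3 using key
  exact ⟨u', ⟨h1, A, hA, hNA, h3⟩, h2⟩

/-- the mixed difference of an inflated function -/
theorem mixD_lift {r : ℕ} {G' G : Type} [Group G'] [Fintype G'] [Group G] (π : G' →* G)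
    (χ : G → ℂ) (g' : G') {u : Fin (r + 1) → ℕ} (hA : Adm (orderOf (π g')) u) :
    ∃ u' : Fin (r + 1) → ℕ, Adm (orderOf g') u' ∧
      mixD (fun x => χ (π x)) g' u' = mixD χ (π g') u := by
  obtain ⟨u', hA', hu⟩ := adm_lift (orderOf_pos g') (orderOf_map_dvd π g') hA
  refine ⟨u', hA', ?_⟩
  unfold mixD
  refine Finset.sum_congr rfl fun I hI => ?_
  clear hI
  show _ * χ (π (g' ^ ∏ i ∈ I, u' i)) = _
  rw [map_pow]
  have h : ∏ i ∈ I, u' i ≡ ∏ i ∈ I, u i [MOD orderOf (π g')] := by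
    induction I using Finset.induction_on with
    | empty => rfl
    | insert a s ha ih =>
      rw [Finset.prod_insert ha, Finset.prod_insert ha]
      exact (hu a).mul ih
  rw [pow_eq_pow_iff_modEq.2 h]

end StarkSharp
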