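import Pool.Agent.Lib_helper3.SH.Main

/-!
# Mixed differences of class functions
-/

open scoped Classical

namespace StarkSharp

variable {G : Type} [Group G] [Fintype G] {r : ℕ}

/-- The mixed difference `∑_I (-1)^|I| f(g^(u_I))`, the sum over all subsets `I` of `{0, …, r}`,
where `u_I` is the product of the `u_i`, `i ∈ I`. -/
noncomputable def mixD (f : G → ℂ) (g : G) (u : Fin (r + 1) → ℕ) : ℂ :=
  ∑ I : Finset (Fin (r + 1)), (-1 : ℂ) ^ I.card * f (g ^ ∏ i ∈ I, u i)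

/-- All `u_i` are prime to `n`, and `n` is a product of pairwise coprime `n_0, …, n_r` with
`u_i ≡ 1` modulo `n_j` for all `i ≠ j`. -/
def Adm (n : ℕ) (u : Fin (r + 1) → ℕ) : Prop :=
  (∀ i, (u i).Coprime n) ∧ ∃ m : Fin (r + 1) → ℕ, (∀ i j, i ≠ j → (m i).Coprime (m j)) ∧
    n = ∏ i, m i ∧ ∀ i j, i ≠ j → u i ≡ 1 [MOD m j]

theorem Adm.coprime_prod {n : ℕ} {u : Fin (r + 1) → ℕ} (h : Adm n u)
    (I : Finset (Fin (r + 1))) : (∏ i ∈ I, u i).Coprime n :=
  Nat.Coprime.prod_left fun i _ => h.1 i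

omit [Fintype G] in
theorem mixD_add (f f' : G → ℂ) (g : G) (u : Fin (r + 1) → ℕ) :
    mixD (f + f') g u = mixD f g u + mixD f' g u := by
  simp only [mixD, Pi.add_apply, mul_add, Finset.sum_add_distrib]

omit [Fintype G] in
theorem mixD_neg (f : G → ℂ) (g : G) (u : Fin (r + 1) → ℕ) : mixD (-f) g u = - mixD f g u := by
  simp only [mixD, Pi.neg_apply, mul_neg, Finset.sum_neg_distrib]

omit [Fintype G] in
theorem mixD_zero (g : G) (u : Fin (r + 1) → ℕ) : mixD (0 : G → ℂ) g u = 0 := by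
  simp [mixD]

omit [Fintype G] in
theorem mixD_smul (m : ℂ) (f : G → ℂ) (g : G) (u : Fin (r + 1) → ℕ) :
    mixD (fun x => m * f x) g u = m * mixD f g u := by
  simp only [mixD, Finset.mul_sum]
  refine Finset.sum_congr rfl fun I _ => ?_
  ring

/-- Toggling one index. -/
theorem sum_toggle (i : Fin (r + 1)) (F : Finset (Fin (r + 1)) → ℂ)
    (hF : ∀ I, i ∉ I → F (insert i I) = F I) :
    ∑ I : Finset (Fin (r + 1)), (-1 : ℂ) ^ I.card * F I = 0 := by
  have e : (Finset.univ : Finset (Finset (Fin (r + 1)))) =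
      (insert i (Finset.univ.erase i)).powerset := by
    rw [Finset.insert_erase (Finset.mem_univ i), Finset.powerset_univ]
  rw [e, Finset.sum_powerset_insert (Finset.notMem_erase i _), ← Finset.sum_add_distrib]
  refine Finset.sum_eq_zero fun I hI => ?_
  have hi : i ∉ I := fun h => (Finset.notMem_erase i _) (Finset.mem_powerset.1 hI h)
  rw [Finset.card_insert_of_notMem hi, hF I hi, pow_succ]
  ring

omit [Fintype G] in
/-- functions which are constant on the generators of `⟨g⟩` -/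
theorem mixD_const {f : G → ℂ} {g : G} {u : Fin (r + 1) → ℕ} (hu : Adm (orderOf g) u)
    (h : ∀ a : ℕ, a.Coprime (orderOf g) → f (g ^ a) = f g) :
    mixD f g u = 0 := by
  refine sum_toggle 0 (fun I => f (g ^ ∏ i ∈ I, u i)) ?_
  intro I _
  show f (g ^ ∏ i ∈ insert 0 I, u i) = f (g ^ ∏ i ∈ I, u i)
  rw [h _ (hu.coprime_prod _), h _ (hu.coprime_prod _)]

omit [Fintype G] in
theorem mixD_closure {s : Set (G → ℂ)} {g : G} {u : Fin (r + 1) → ℕ}
    (h : ∀ f ∈ s, mixD f g u = 0) {f : G → ℂ} (hf : f ∈ AddSubgroup.closure s) :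
    mixD f g u = 0 := by
  induction hf using AddSubgroup.closure_induction with
  | mem x hx => exact h x hx
  | zero => exact mixD_zero g u
  | add x y _ _ hx hy => rw [mixD_add, hx, hy, add_zero]
  | neg x _ hx => rw [mixD_neg, hx, neg_zero]

/-- pigeonhole: a number with at most `r` prime factors is prime to one of `r + 1` pairwise coprime
numbers -/
theorem exists_coprime_index {m : Fin (r + 1) → ℕ} (hm : ∀ i j, i ≠ j → (m i).Coprime (m j))
    {o : ℕ} (ho0 : o ≠ 0) (ho : o.primeFactors.card ≤ r) : ∃ i, o.Coprime (m i) := by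
  by_contra hne
  push Not at hne
  have h1 : ∀ i, ∃ p : ℕ, p.Prime ∧ p ∣ o ∧ p ∣ m i := fun i =>
    Nat.Prime.not_coprime_iff_dvd.1 (hne i)
  choose p hp hpo hpm using h1
  have hinj : Function.Injective p := by
    intro i j hij
    by_contra hne
    have h2 : p i ∣ Nat.gcd (m i) (m j) := Nat.dvd_gcd (hpm i) (hij ▸ hpm j)
    rw [hm i j hne] at h2
    exact (hp i).ne_one (Nat.dvd_one.1 h2)
  have h3 : (Finset.univ.image p) ⊆ o.primeFactors := by
    intro x hx
    obtain ⟨i, -, rfl⟩ := Finset.mem_image.1 hx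
    exact Nat.mem_primeFactors.2 ⟨hp i, hpo i, ho0⟩
  have h4 := Finset.card_le_card h3
  rw [Finset.card_image_of_injective _ hinj, Finset.card_univ, Fintype.card_fin] at h4
  omega

/-- `u_i` is `1` modulo all divisors of `n` prime to `n_i` -/
theorem modEq_one_of {m : Fin (r + 1) → ℕ} (hm : ∀ i j, i ≠ j → (m i).Coprime (m j))
    {u : Fin (r + 1) → ℕ} (hu : ∀ i j, i ≠ j → u i ≡ 1 [MOD m j]) {o : ℕ} (ho : o ∣ ∏ i, m i)
    {i : Fin (r + 1)} (hi : o.Coprime (m i)) : u i ≡ 1 [MOD o] := by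
  have h1 : o ∣ ∏ j ∈ Finset.univ.erase i, m j := by
    rw [← Finset.mul_prod_erase Finset.univ m (Finset.mem_univ i)] at ho
    exact hi.dvd_of_dvd_mul_left ho
  refine Nat.ModEq.of_dvd h1 ?_
  rw [Nat.modEq_iff_dvd]
  push_cast
  refine Finset.prod_dvd_of_coprime ?_ ?_
  · intro a _ b _ hab
    exact Nat.isCoprime_iff_coprime.2 (hm a b hab)
  · intro j hj
    have := (Nat.modEq_iff_dvd.1 (hu i j (Finset.ne_of_mem_erase hj).symm))
    simpa using this

/-- A root of unity whose order has at most `r` prime factors. -/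
theorem root_mix {ζ : ℂˣ} {n : ℕ} {u : Fin (r + 1) → ℕ} (h1 : (orderOf ζ).primeFactors.card ≤ r)
    (hn : 0 < n) (h2 : ζ ^ n = 1) (hA : Adm n u) :
    ∑ I : Finset (Fin (r + 1)), (-1 : ℂ) ^ I.card * (ζ : ℂ) ^ (∏ i ∈ I, u i) = 0 := by
  obtain ⟨-, m, hm, rfl, hu⟩ := hA
  have ho : orderOf ζ ≠ 0 := (orderOf_pos_iff.2 (isOfFinOrder_iff_pow_eq_one.2 ⟨_, hn, h2⟩)).ne'
  obtain ⟨i, hi⟩ := exists_coprime_index hm ho h1
  have h3 : u i ≡ 1 [MOD orderOf ζ] := modEq_one_of hm hu (orderOf_dvd_of_pow_eq_one h2) hi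
  refine sum_toggle i (fun I => (ζ : ℂ) ^ (∏ i ∈ I, u i)) ?_
  intro I hI
  show (ζ : ℂ) ^ (∏ i ∈ insert i I, u i) = (ζ : ℂ) ^ (∏ i ∈ I, u i)
  rw [Finset.prod_insert hI, ← Units.val_pow_eq_pow_val, ← Units.val_pow_eq_pow_val]
  congr 1
  rw [pow_eq_pow_iff_modEq]
  have := h3.mul_right (∏ i ∈ I, u i)
  rwa [one_mul] at this

omit [Fintype G] in
theorem mem_pow_iff {H : Subgroup G} {y : G} {a : ℕ} (ha : a.Coprime (orderOf y)) :
    y ^ a ∈ H ↔ y ∈ H := by
  constructor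
  · intro h
    obtain ⟨b, hb⟩ := exists_pow_eq_self_of_coprime ha
    rw [← hb]
    exact H.pow_mem h b
  · intro h
    exact H.pow_mem h a

omit [Fintype G] in
theorem conj_pow' (x g : G) (a : ℕ) : x⁻¹ * g ^ a * x = (x⁻¹ * g * x) ^ a := by
  induction a with
  | zero => simp
  | succ a ih =>
    rw [pow_succ, pow_succ, ← ih]
    group

omit [Fintype G] in
theorem orderOf_conj' (x g : G) : orderOf (x⁻¹ * g * x) = orderOf g := by
  have h : x⁻¹ * g * x = (MulAut.conj x⁻¹) g := by simp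
  rw [h]
  exact MulEquiv.orderOf_eq (MulAut.conj x⁻¹) g

/-- The value of an induced linear character at `g^a`, as a sum. -/
theorem indFun_pow (H : Subgroup G) (ψ : H →* ℂˣ) (g : G) {a : ℕ} (ha : a.Coprime (orderOf g)) :
    indFun H (extF H fun h => (ψ h : ℂ)) (g ^ a) =
      (∑ x : G, if h : x⁻¹ * g * x ∈ H then ((ψ ⟨x⁻¹ * g * x, h⟩ : ℂˣ) : ℂ) ^ a else 0) /
        (Nat.card H : ℂ) := by
  unfold indFun
  congr 1
  refine Finset.sum_congr rfl fun x _ => ?_
  have hy : a.Coprime (orderOf (x⁻¹ * g * x)) := by rwa [orderOf_conj']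
  rw [conj_pow']
  by_cases h : x⁻¹ * g * x ∈ H
  · have h2 : (x⁻¹ * g * x) ^ a ∈ H := H.pow_mem h a
    rw [if_pos h2, dif_pos h]
    unfold extF
    rw [dif_pos h2]
    have e : (⟨(x⁻¹ * g * x) ^ a, h2⟩ : H) = (⟨x⁻¹ * g * x, h⟩ : H) ^ a := rfl
    show ((ψ (⟨(x⁻¹ * g * x) ^ a, h2⟩ : H) : ℂˣ) : ℂ) = _
    rw [e, map_pow, Units.val_pow_eq_pow_val]
  · rw [if_neg (fun h2 => h ((mem_pow_iff hy).1 h2)), dif_neg h]

/-- Induced linear characters whose order has at most `r` prime factors. -/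
theorem mixD_few (H : Subgroup G) (ψ : H →* ℂˣ) (hψ : (orderOf ψ).primeFactors.card ≤ r)
    (g : G) {u : Fin (r + 1) → ℕ} (hA : Adm (orderOf g) u) :
    mixD (indFun H (extF H fun h => (ψ h : ℂ))) g u = 0 := by
  have hψ0 : orderOf ψ ≠ 0 := by
    refine (orderOf_pos_iff.2 (isOfFinOrder_iff_pow_eq_one.2
      ⟨Nat.card H, Nat.card_pos, ?_⟩)).ne'
    refine MonoidHom.ext fun h => ?_
    rw [MonoidHom.pow_apply, ← map_pow, pow_card_eq_one', map_one, MonoidHom.one_apply]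
  unfold mixD
  have e1 : ∀ I : Finset (Fin (r + 1)), (-1 : ℂ) ^ I.card *
      indFun H (extF H fun h => (ψ h : ℂ)) (g ^ ∏ i ∈ I, u i) =
      (∑ x : G, (-1 : ℂ) ^ I.card * if h : x⁻¹ * g * x ∈ H then
        ((ψ ⟨x⁻¹ * g * x, h⟩ : ℂˣ) : ℂ) ^ (∏ i ∈ I, u i) else 0) / (Nat.card H : ℂ) := by
    intro I
    rw [indFun_pow H ψ g (hA.coprime_prod I), ← Finset.mul_sum, mul_div_assoc]
  rw [Finset.sum_congr rfl fun I _ => e1 I, ← Finset.sum_div, Finset.sum_comm,
    Finset.sum_eq_zero, zero_div]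
  intro x _
  by_cases h : x⁻¹ * g * x ∈ H
  · simp only [dif_pos h]
    refine root_mix ?_ (orderOf_pos g) ?_ hA
    · refine le_trans (Finset.card_le_card (Nat.primeFactors_mono ?_ hψ0)) hψ
      apply orderOf_dvd_of_pow_eq_one
      rw [← MonoidHom.pow_apply, pow_orderOf_eq_one, MonoidHom.one_apply]
    · rw [← map_pow]
      have e : (⟨x⁻¹ * g * x, h⟩ : H) ^ orderOf g = 1 := by
        apply Subtype.ext
        show (x⁻¹ * g * x) ^ orderOf g = 1
        rw [← orderOf_conj' x g]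
        exact pow_orderOf_eq_one _
      rw [e, map_one]
  · simp only [dif_neg h, mul_zero, Finset.sum_const_zero]

/-- Induced linear characters which are trivial at the conjugates of `g` in `H`. -/
theorem ind_trivial_const (H : Subgroup G) (ψ : H →* ℂˣ) (g : G)
    (hψ : ∀ (x : G) (h : x⁻¹ * g * x ∈ H), ψ ⟨x⁻¹ * g * x, h⟩ = 1) (a : ℕ)
    (ha : a.Coprime (orderOf g)) :
    indFun H (extF H fun h => (ψ h : ℂ)) (g ^ a) = indFun H (extF H fun h => (ψ h : ℂ)) g := by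
  have e := indFun_pow H ψ g (a := 1) (Nat.coprime_one_left _)
  rw [pow_one] at e
  rw [indFun_pow H ψ g ha, e]
  congr 1
  refine Finset.sum_congr rfl fun x _ => ?_
  by_cases h : x⁻¹ * g * x ∈ H
  · rw [dif_pos h, dif_pos h, hψ x h, Units.val_one, one_pow, one_pow]
  · rw [dif_neg h, dif_neg h]

end StarkSharp
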