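import Pool.Agent.StarkU.Stmts
import Pool.Agent.Stark.CMB
import Pool.Agent.Lib_helper3.SM.Avg

/-!
# Projection to few primes

A combination of characters induced from linear characters in a closed family, whose values lie in
the span of the roots of unity whose order has at most `r` prime factors, is a combination of
characters induced from linear characters in the family whose order has at most `r` prime factors
(2 counted only if 4 divides the order).
-/

open scoped Classical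
open Polynomial

namespace StarkProj

open StarkC

variable {G : Type} [Group G] [Fintype G]

/-! ### Basic facts -/

omit [Fintype G] in
theorem mem_pow_iff {H : Subgroup G} {y : G} {a : ℕ} (ha : a.Coprime (orderOf y)) :
    y ^ a ∈ H ↔ y ∈ H := by
  constructor
  · intro h
    obtain ⟨b, hb⟩ := exists_pow_eq_self_of_coprime ha
    rw [← hb]
    exact H.pow_mem h b
  · intro h
    exact H.pow_mem h a

omit [Fintype G] in
theorem conj_pow' (x g : G) (a : ℕ) : x⁻¹ * g ^ a * x = (x⁻¹ * g * x) ^ a := by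
  induction a with
  | zero => simp
  | succ a ih =>
    rw [pow_succ, pow_succ, ← ih]
    group

omit [Fintype G] in
theorem orderOf_conj' (x g : G) : orderOf (x⁻¹ * g * x) = orderOf g := by
  have h : x⁻¹ * g * x = (MulAut.conj x⁻¹) g := by simp
  rw [h]
  exact MulEquiv.orderOf_eq (MulAut.conj x⁻¹) g

/-- The value of an induced linear character at `g^a`, as a sum. -/
theorem indFun_pow (H : Subgroup G) (ψ : H →* ℂˣ) (g : G) {a : ℕ} (ha : a.Coprime (orderOf g)) :
    indFun H (extZ ψ) (g ^ a) =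
      (∑ x : G, if h : x⁻¹ * g * x ∈ H then ((ψ ⟨x⁻¹ * g * x, h⟩ : ℂˣ) : ℂ) ^ a else 0) /
        (Nat.card H : ℂ) := by
  unfold indFun
  congr 1
  refine Finset.sum_congr rfl fun x _ => ?_
  have hy : a.Coprime (orderOf (x⁻¹ * g * x)) := by rwa [orderOf_conj']
  rw [conj_pow']
  by_cases h : x⁻¹ * g * x ∈ H
  · have h2 : (x⁻¹ * g * x) ^ a ∈ H := H.pow_mem h a
    rw [if_pos h2, dif_pos h]
    unfold extZ
    rw [dif_pos h2]
    have e : (⟨(x⁻¹ * g * x) ^ a, h2⟩ : H) = (⟨x⁻¹ * g * x, h⟩ : H) ^ a := rfl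
    show ((ψ (⟨(x⁻¹ * g * x) ^ a, h2⟩ : H) : ℂˣ) : ℂ) = _
    rw [e, map_pow, Units.val_pow_eq_pow_val]
  · rw [if_neg (fun h2 => h ((mem_pow_iff hy).1 h2)), dif_neg h]

theorem val_pow_card {N : ℕ} (hN : Fintype.card G ∣ N) {H : Subgroup G} (ψ : H →* ℂˣ) (h : H) :
    ((ψ h : ℂˣ) : ℂ) ^ N = 1 := by
  have h1 : h ^ N = 1 := by
    apply Subtype.ext
    rw [Subgroup.coe_pow, Subgroup.coe_one]
    obtain ⟨c, rfl⟩ := hN
    rw [pow_mul, pow_card_eq_one, one_pow]
  rw [← Units.val_pow_eq_pow_val, ← map_pow, h1, map_one, Units.val_one]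

theorem psi_pow_card {N : ℕ} (hN : Fintype.card G ∣ N) {H : Subgroup G} (ψ : H →* ℂˣ) :
    ψ ^ N = 1 := by
  refine MonoidHom.ext fun h => Units.ext ?_
  rw [MonoidHom.pow_apply, Units.val_pow_eq_pow_val, MonoidHom.one_apply, Units.val_one]
  exact val_pow_card hN ψ h

theorem psi_sq_pow_card {N : ℕ} (hN : Fintype.card G ∣ N) {H : Subgroup G} (ψ : H →* ℂˣ) :
    (ψ ^ 2) ^ N = 1 := by
  refine MonoidHom.ext fun h => Units.ext ?_
  rw [MonoidHom.pow_apply, MonoidHom.pow_apply, ← pow_mul, mul_comm, pow_mul,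
    Units.val_pow_eq_pow_val, Units.val_pow_eq_pow_val, MonoidHom.one_apply, Units.val_one,
    val_pow_card hN ψ h, one_pow]

/-- The span of the `N`-th roots of unity whose square has an order with at most `r` prime factors
in `S`. -/
noncomputable def WW (N : ℕ) (S : Finset ℕ) (r : ℕ) : Submodule ℚ ℂ :=
  Submodule.span ℚ {z : ℂ | z ^ N = 1 ∧ ((orderOf (z ^ 2)).primeFactors ∩ S).card ≤ r}

/-- The family of pairs is stable under restriction to subgroups containing the kernel of `ψ²`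
and under odd powers. -/
def ClosedFam (P : ∀ H : Subgroup G, (H →* ℂˣ) → Prop) : Prop :=
  ∀ (H H' : Subgroup G) (ψ : H →* ℂˣ) (ψ' : H' →* ℂˣ) (s : ℕ), P H ψ → H' ≤ H → Odd s →
    (∀ h : H, (ψ h) ^ 2 = 1 → (h : G) ∈ H') →
    (∀ (h : H) (h' : H'), (h : G) = h' → ψ' h' = (ψ h) ^ s) → P H' ψ'

/-! ### Galois conjugates -/

/-- `f(x^u)` is obtained from `f(x)` by `ζ ↦ ζ^u`. -/
def GalF (N : ℕ) (ζ : ℂ) (f : G → ℂ) : Prop :=
  ∀ x, ∃ P : ℚ[X], ∀ u : ℕ, u.Coprime N → f (x ^ u) = aeval (ζ ^ u) P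

theorem galF_span {N : ℕ} (hN0 : 0 < N) (hN : Fintype.card G ∣ N) {ζ : ℂ}
    (hζ : IsPrimitiveRoot ζ N) {P : ∀ H : Subgroup G, (H →* ℂˣ) → Prop} {f : G → ℂ}
    (hf : f ∈ SpanQ (G := G) P) : GalF N ζ f := by
  unfold SpanQ at hf
  induction hf using Submodule.span_induction with
  | mem f hf =>
    obtain ⟨H, ψ, -, rfl⟩ := hf
    intro x
    have h1 : ∀ y : G, ∃ j : ℕ, ∀ h : y⁻¹ * x * y ∈ H,
        ((ψ ⟨y⁻¹ * x * y, h⟩ : ℂˣ) : ℂ) = ζ ^ j := by
      intro y
      by_cases h : y⁻¹ * x * y ∈ H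
      · have : NeZero N := ⟨hN0.ne'⟩
        obtain ⟨j, -, hj⟩ := hζ.eq_pow_of_pow_eq_one (val_pow_card hN ψ ⟨y⁻¹ * x * y, h⟩)
        exact ⟨j, fun _ => hj.symm⟩
      · exact ⟨0, fun h' => absurd h' h⟩
    choose j hj using h1
    refine ⟨C ((Nat.card H : ℚ)⁻¹) * ∑ y : G, if y⁻¹ * x * y ∈ H then X ^ (j y) else 0, ?_⟩
    intro u hu
    have hu' : u.Coprime (orderOf x) := hu.coprime_dvd_right ((orderOf_dvd_card).trans hN)
    rw [indFun_pow H ψ x hu', map_mul, aeval_C, map_sum, div_eq_mul_inv, mul_comm]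
    congr 1
    · simp
    · refine Finset.sum_congr rfl fun y _ => ?_
      by_cases h : y⁻¹ * x * y ∈ H
      · rw [dif_pos h, if_pos h, map_pow, aeval_X, hj y h, ← pow_mul, ← pow_mul, mul_comm]
      · rw [dif_neg h, if_neg h, map_zero]
  | zero => exact fun x => ⟨0, fun u _ => by simp⟩
  | add f g _ _ hf hg =>
    intro x
    obtain ⟨P, hP⟩ := hf x
    obtain ⟨Q, hQ⟩ := hg x
    exact ⟨P + Q, fun u hu => by rw [Pi.add_apply, hP u hu, hQ u hu, map_add]⟩
  | smul q f _ hf =>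
    intro x
    obtain ⟨P, hP⟩ := hf x
    exact ⟨q • P, fun u hu => by rw [Pi.smul_apply, hP u hu, map_smul]⟩

theorem aeval_conj {N : ℕ} (hN : 0 < N) {ζ : ℂ} (hζ : IsPrimitiveRoot ζ N) {P Q : ℚ[X]}
    (h : aeval ζ P = aeval ζ Q) {u : ℕ} (hu : u.Coprime N) :
    aeval (ζ ^ u) P = aeval (ζ ^ u) Q := by
  have h0 : aeval ζ (P - Q) = 0 := by rw [map_sub, h, sub_self]
  have hζ2 : IsPrimitiveRoot (ζ ^ u) N := hζ.pow_of_coprime u hu
  have h2 : minpoly ℚ ζ = minpoly ℚ (ζ ^ u) := by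
    rw [← Polynomial.cyclotomic_eq_minpoly_rat hζ hN,
      ← Polynomial.cyclotomic_eq_minpoly_rat hζ2 hN]
  have h4 := minpoly.dvd ℚ ζ h0
  rw [h2] at h4
  obtain ⟨T, hT⟩ := h4
  have h5 : aeval (ζ ^ u) (P - Q) = 0 := by
    rw [hT, map_mul, minpoly.aeval, zero_mul]
  rw [map_sub, sub_eq_zero] at h5
  exact h5

/-! ### Averages of values -/

theorem order_conj {N : ℕ} {z : ℂ} (hz : z ^ N = 1) {u : ℕ} (hu : u.Coprime N) :
    orderOf ((z ^ u) ^ 2) = orderOf (z ^ 2) := by
  rw [← pow_mul, mul_comm, pow_mul]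
  apply Nat.Coprime.orderOf_pow
  have h1 : orderOf (z ^ 2) ∣ N := by
    apply orderOf_dvd_of_pow_eq_one
    rw [← pow_mul, mul_comm, pow_mul, hz, one_pow]
  exact (hu.coprime_dvd_right h1).symm

theorem avg_value {N p r : ℕ} {S : Finset ℕ} (hN0 : 0 < N) {ζ : ℂ} (hζ : IsPrimitiveRoot ζ N)
    (hp : p.Prime) (hpS : p ∉ S) {U : Finset ℕ} (hU : ∀ u ∈ U, u.Coprime N) (hU0 : U.Nonempty)
    (hfix : ∀ z : ℂ, z ^ N = 1 → ¬ p ∣ orderOf (z ^ 2) → ∀ u ∈ U, z ^ u = z) {w : ℂ}
    (hw : w ∈ WW N (insert p S) r) :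
    ∃ Q : ℚ[X], aeval ζ Q = w ∧ (∑ u ∈ U, aeval (ζ ^ u) Q) / (U.card : ℂ) ∈ WW N S r ∧
      (r = 0 → w - (∑ u ∈ U, aeval (ζ ^ u) Q) / (U.card : ℂ) = 0) ∧
      ∀ r', r = r' + 1 → w - (∑ u ∈ U, aeval (ζ ^ u) Q) / (U.card : ℂ) ∈ WW N S r' := by
  have hc : (U.card : ℂ) ≠ 0 := by exact_mod_cast (Finset.card_pos.2 hU0).ne'
  unfold WW at hw
  induction hw using Submodule.span_induction with
  | mem z hz =>
    obtain ⟨hz, hr⟩ := hz
    have : NeZero N := ⟨hN0.ne'⟩
    obtain ⟨j, -, hj⟩ := hζ.eq_pow_of_pow_eq_one hz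
    have hQ : ∀ u, aeval (ζ ^ u) (X ^ j : ℚ[X]) = z ^ u := by
      intro u
      rw [map_pow, aeval_X, ← hj, ← pow_mul, ← pow_mul, mul_comm]
    have hord : ∀ u ∈ U, orderOf ((z ^ u) ^ 2) = orderOf (z ^ 2) := fun u hu =>
      order_conj hz (hU u hu)
    have hroot : ∀ u, (z ^ u) ^ N = 1 := by
      intro u
      rw [← pow_mul, mul_comm, pow_mul, hz, one_pow]
    have hle : ((orderOf (z ^ 2)).primeFactors ∩ S).card ≤ r :=
      le_trans (Finset.card_le_card (Finset.inter_subset_inter_left (Finset.subset_insert p S))) hr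
    have hdiv : ∀ (V : Submodule ℚ ℂ) (x : ℂ), x ∈ V → x / (U.card : ℂ) ∈ V := by
      intro V x hx
      have : x / (U.card : ℂ) = ((U.card : ℚ)⁻¹) • x := by
        rw [Rat.smul_def]
        push_cast
        ring
      rw [this]
      exact V.smul_mem _ hx
    refine ⟨X ^ j, by rw [map_pow, aeval_X, hj], ?_, ?_, ?_⟩
    · apply hdiv
      refine Submodule.sum_mem _ fun u hu => ?_
      rw [hQ]
      exact Submodule.subset_span ⟨hroot u, by rw [hord u hu]; exact hle⟩
    · intro hr0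
      have hnp : ¬ p ∣ orderOf (z ^ 2) := by
        intro hpd
        have hmem : p ∈ (orderOf (z ^ 2)).primeFactors ∩ insert p S := by
          rw [Finset.mem_inter]
          refine ⟨Nat.mem_primeFactors.2 ⟨hp, hpd, ?_⟩, Finset.mem_insert_self _ _⟩
          intro h0
          rw [orderOf_eq_zero_iff'] at h0
          apply h0 N hN0
          rw [← pow_mul, mul_comm, pow_mul, hz, one_pow]
        have := Finset.card_pos.2 ⟨p, hmem⟩
        omega
      have h1 : ∑ u ∈ U, aeval (ζ ^ u) (X ^ j : ℚ[X]) = (U.card : ℂ) * z := by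
        rw [Finset.sum_congr rfl (g := fun _ => z) fun u hu => ?_]
        · rw [Finset.sum_const, nsmul_eq_mul]
        · rw [hQ, hfix z hz hnp u hu]
      rw [h1, mul_div_cancel_left₀ _ hc, sub_self]
    · intro r' hr'
      by_cases hpd : p ∣ orderOf (z ^ 2)
      · have hlt : ((orderOf (z ^ 2)).primeFactors ∩ S).card ≤ r' := by
          have hmem : p ∈ (orderOf (z ^ 2)).primeFactors := by
            refine Nat.mem_primeFactors.2 ⟨hp, hpd, ?_⟩
            intro h0
            rw [orderOf_eq_zero_iff'] at h0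
            apply h0 N hN0
            rw [← pow_mul, mul_comm, pow_mul, hz, one_pow]
          have h1 : (orderOf (z ^ 2)).primeFactors ∩ insert p S =
              insert p ((orderOf (z ^ 2)).primeFactors ∩ S) := by
            rw [Finset.inter_insert_of_mem hmem]
          rw [h1, Finset.card_insert_of_notMem (fun h => hpS (Finset.mem_inter.1 h).2)] at hr
          omega
        apply Submodule.sub_mem
        · exact Submodule.subset_span ⟨hz, hlt⟩
        · apply hdiv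
          refine Submodule.sum_mem _ fun u hu => ?_
          rw [hQ]
          exact Submodule.subset_span ⟨hroot u, by rw [hord u hu]; exact hlt⟩
      · have h1 : ∑ u ∈ U, aeval (ζ ^ u) (X ^ j : ℚ[X]) = (U.card : ℂ) * z := by
          rw [Finset.sum_congr rfl (g := fun _ => z) fun u hu => ?_]
          · rw [Finset.sum_const, nsmul_eq_mul]
          · rw [hQ, hfix z hz hpd u hu]
        rw [h1, mul_div_cancel_left₀ _ hc, sub_self]
        exact Submodule.zero_mem _
  | zero =>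
    refine ⟨0, by simp, ?_, ?_, ?_⟩
    · simp
    · simp
    · simp
  | add x y _ _ hx hy =>
    obtain ⟨Q, h1, h2, h3, h4⟩ := hx
    obtain ⟨Q', h1', h2', h3', h4'⟩ := hy
    have e : (∑ u ∈ U, aeval (ζ ^ u) (Q + Q')) / (U.card : ℂ) =
        (∑ u ∈ U, aeval (ζ ^ u) Q) / (U.card : ℂ) + (∑ u ∈ U, aeval (ζ ^ u) Q') / (U.card : ℂ) := by
      rw [← add_div, ← Finset.sum_add_distrib]
      congr 1
      exact Finset.sum_congr rfl fun u _ => map_add _ _ _
    refine ⟨Q + Q', by rw [map_add, h1, h1'], ?_, ?_, ?_⟩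
    · rw [e]
      exact Submodule.add_mem _ h2 h2'
    · intro hr
      rw [e, add_sub_add_comm, h3 hr, h3' hr, add_zero]
    · intro r' hr
      rw [e, add_sub_add_comm]
      exact Submodule.add_mem _ (h4 r' hr) (h4' r' hr)
  | smul q x _ hx =>
    obtain ⟨Q, h1, h2, h3, h4⟩ := hx
    have e : (∑ u ∈ U, aeval (ζ ^ u) (q • Q)) / (U.card : ℂ) =
        q • ((∑ u ∈ U, aeval (ζ ^ u) Q) / (U.card : ℂ)) := by
      rw [Rat.smul_def, mul_div_assoc', Finset.mul_sum]
      congr 1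
      refine Finset.sum_congr rfl fun u _ => ?_
      rw [map_smul, Rat.smul_def]
    refine ⟨q • Q, by rw [map_smul, h1], ?_, ?_, ?_⟩
    · rw [e]
      exact Submodule.smul_mem _ _ h2
    · intro hr
      rw [e, ← smul_sub, h3 hr, smul_zero]
    · intro r' hr
      rw [e, ← smul_sub]
      exact Submodule.smul_mem _ _ (h4 r' hr)

/-- The average of the Galois conjugates of `f`. -/
noncomputable def avgF (U : Finset ℕ) (f : G → ℂ) : G → ℂ :=
  fun x => (∑ u ∈ U, f (x ^ u)) / (U.card : ℂ)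

omit [Fintype G] in
theorem avgF_value {N p r : ℕ} {S : Finset ℕ} (hN0 : 0 < N) {ζ : ℂ} (hζ : IsPrimitiveRoot ζ N)
    (hp : p.Prime) (hpS : p ∉ S) {U : Finset ℕ} (hU : ∀ u ∈ U, u.Coprime N) (hU0 : U.Nonempty)
    (hfix : ∀ z : ℂ, z ^ N = 1 → ¬ p ∣ orderOf (z ^ 2) → ∀ u ∈ U, z ^ u = z) {f : G → ℂ}
    (hf : GalF N ζ f) (hw : ∀ x, f x ∈ WW N (insert p S) r) :
    (∀ x, avgF U f x ∈ WW N S r) ∧ (r = 0 → f - avgF U f = 0) ∧
      ∀ r', r = r' + 1 → ∀ x, (f - avgF U f) x ∈ WW N S r' := by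
  have key : ∀ x, ∃ Q : ℚ[X], avgF U f x = (∑ u ∈ U, aeval (ζ ^ u) Q) / (U.card : ℂ) ∧
      (∑ u ∈ U, aeval (ζ ^ u) Q) / (U.card : ℂ) ∈ WW N S r ∧
      (r = 0 → f x - (∑ u ∈ U, aeval (ζ ^ u) Q) / (U.card : ℂ) = 0) ∧
      ∀ r', r = r' + 1 → f x - (∑ u ∈ U, aeval (ζ ^ u) Q) / (U.card : ℂ) ∈ WW N S r' := by
    intro x
    obtain ⟨Q, h1, h2, h3, h4⟩ := avg_value hN0 hζ hp hpS hU hU0 hfix (hw x)
    obtain ⟨P, hP⟩ := hf x
    refine ⟨Q, ?_, h2, h3, h4⟩
    unfold avgF
    congr 1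
    refine Finset.sum_congr rfl fun u hu => ?_
    rw [hP u (hU u hu)]
    apply aeval_conj hN0 hζ _ (hU u hu)
    have h5 := hP 1 (Nat.coprime_one_left N)
    rw [pow_one, pow_one] at h5
    rw [← h5, h1]
  refine ⟨fun x => ?_, fun hr => ?_, fun r' hr x => ?_⟩
  · obtain ⟨Q, h1, h2, -, -⟩ := key x
    rw [h1]
    exact h2
  · funext x
    obtain ⟨Q, h1, -, h3, -⟩ := key x
    rw [Pi.sub_apply, h1, h3 hr, Pi.zero_apply]
  · obtain ⟨Q, h1, -, -, h4⟩ := key x
    rw [Pi.sub_apply, h1]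
    exact h4 r' hr

/-! ### Averages of induced characters -/

theorem avg_span {N p : ℕ} (hN : Fintype.card G ∣ N) {U : Finset ℕ}
    (hU : ∀ u ∈ U, u.Coprime N) {k : ℕ} {q : Fin k → ℚ} {s m : Fin k → ℕ} {M : ℕ}
    (hsm : ∀ i, Odd (s i) ∧ Even (m i)) (hM : ¬ p ∣ M)
    (hM2 : ∀ i, ∀ z : ℂ, z ^ N = 1 → z ^ (m i) = 1 → ((z ^ (s i)) ^ 2) ^ M = 1)
    (hav : ∀ z : ℂ, z ^ N = 1 → (∑ u ∈ U, z ^ u) / (U.card : ℂ) =
        ∑ i, (q i : ℂ) * (if z ^ (m i) = 1 then z ^ (s i) else 0))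
    {P : ∀ H : Subgroup G, (H →* ℂˣ) → Prop} (hP : ClosedFam P) {f : G → ℂ}
    (hf : f ∈ SpanQ (G := G) P) :
    avgF U f ∈ SpanQ (G := G) (fun H ψ => P H ψ ∧ ¬ p ∣ orderOf (ψ ^ 2)) := by
  unfold SpanQ at hf
  induction hf using Submodule.span_induction with
  | mem f hf =>
    obtain ⟨H, ψ, hψ, rfl⟩ := hf
    -- the subgroups and characters
    let Hi : Fin k → Subgroup G := fun i => (ψ ^ (m i)).ker.map H.subtype
    have hHi : ∀ i, Hi i ≤ H := fun i => Subgroup.map_subtype_le _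
    have hmem : ∀ (i : Fin k) (h : H), (h : G) ∈ Hi i ↔ ((ψ h : ℂˣ) : ℂ) ^ (m i) = 1 := by
      intro i h
      have e1 : (h : G) ∈ Hi i ↔ h ∈ (ψ ^ (m i)).ker := by
        constructor
        · rintro ⟨y, hy, hyh⟩
          have : y = h := Subtype.ext hyh
          rwa [← this]
        · intro hh
          exact ⟨h, hh, rfl⟩
      rw [e1, MonoidHom.mem_ker, MonoidHom.pow_apply, ← Units.val_pow_eq_pow_val]
      exact ⟨fun h => by rw [h, Units.val_one], fun h => Units.ext h⟩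
    let ψi : ∀ i, Hi i →* ℂˣ := fun i => (ψ.comp (Subgroup.inclusion (hHi i))) ^ (s i)
    have hval : ∀ (i : Fin k) (h : H) (h' : Hi i), (h : G) = h' → ψi i h' = (ψ h) ^ (s i) := by
      intro i h h' e
      show (ψ (Subgroup.inclusion (hHi i) h')) ^ (s i) = _
      have : Subgroup.inclusion (hHi i) h' = h := Subtype.ext e.symm
      rw [this]
    have hPi : ∀ i, P (Hi i) (ψi i) := by
      intro i
      refine hP H (Hi i) ψ (ψi i) (s i) hψ (hHi i) (hsm i).1 ?_ (hval i)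
      intro h hh
      rw [hmem]
      obtain ⟨c, hc⟩ := (hsm i).2
      rw [hc, ← two_mul, pow_mul, ← Units.val_pow_eq_pow_val, hh, Units.val_one, one_pow]
    have hord : ∀ i, ¬ p ∣ orderOf ((ψi i) ^ 2) := by
      intro i hpd
      apply hM
      refine hpd.trans (orderOf_dvd_of_pow_eq_one ?_)
      refine MonoidHom.ext fun h' => Units.ext ?_
      have e := hval i ⟨(h' : G), hHi i h'.2⟩ h' rfl
      rw [MonoidHom.pow_apply, MonoidHom.pow_apply, e, MonoidHom.one_apply]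
      simp only [Units.val_pow_eq_pow_val, Units.val_one]
      apply hM2 i _ (val_pow_card hN ψ _)
      rw [← hmem]
      exact h'.2
    have key : avgF U (indFun H (extZ ψ)) = ∑ i, (q i * ((Nat.card (Hi i) : ℚ) /
        (Nat.card H : ℚ))) • indFun (Hi i) (extZ (ψi i)) := by
      funext g
      unfold avgF
      have hcH : (Nat.card H : ℂ) ≠ 0 := by exact_mod_cast Nat.card_pos.ne'
      have hcop : ∀ u ∈ U, u.Coprime (orderOf g) := fun u hu =>
        (hU u hu).coprime_dvd_right ((orderOf_dvd_card).trans hN)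
      rw [Finset.sum_congr rfl fun u hu => indFun_pow H ψ g (hcop u hu), ← Finset.sum_div,
        Finset.sum_comm, Finset.sum_apply]
      have e1 : ∀ x : G, (∑ u ∈ U, if h : x⁻¹ * g * x ∈ H then
          ((ψ ⟨x⁻¹ * g * x, h⟩ : ℂˣ) : ℂ) ^ u else 0) / (U.card : ℂ) =
          ∑ i, (q i : ℂ) * (if x⁻¹ * g * x ∈ Hi i then extZ (ψi i) (x⁻¹ * g * x) else 0) := by
        intro x
        by_cases h : x⁻¹ * g * x ∈ H
        · simp only [dif_pos h]
          rw [hav _ (val_pow_card hN ψ _)]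
          refine Finset.sum_congr rfl fun i _ => ?_
          congr 1
          by_cases h2 : x⁻¹ * g * x ∈ Hi i
          · rw [if_pos h2, if_pos ((hmem i ⟨_, h⟩).1 h2)]
            unfold extZ
            rw [dif_pos h2, hval i ⟨_, h⟩ ⟨_, h2⟩ rfl, Units.val_pow_eq_pow_val]
          · rw [if_neg h2, if_neg (fun h3 => h2 ((hmem i ⟨_, h⟩).2 h3))]
        · simp only [dif_neg h, Finset.sum_const_zero, zero_div]
          symm
          refine Finset.sum_eq_zero fun i _ => ?_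
          rw [if_neg (fun h2 => h (hHi i h2)), mul_zero]
      have e2 : (∑ x : G, ∑ u ∈ U, if h : x⁻¹ * g * x ∈ H then
          ((ψ ⟨x⁻¹ * g * x, h⟩ : ℂˣ) : ℂ) ^ u else 0) / (Nat.card H : ℂ) / (U.card : ℂ) =
          (∑ x : G, ∑ i, (q i : ℂ) * (if x⁻¹ * g * x ∈ Hi i then extZ (ψi i) (x⁻¹ * g * x)
            else 0)) / (Nat.card H : ℂ) := by
        rw [div_right_comm, Finset.sum_div, Finset.sum_congr rfl fun x _ => e1 x]
      rw [e2, Finset.sum_comm, Finset.sum_div]
      refine Finset.sum_congr rfl fun i _ => ?_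
      rw [Pi.smul_apply, Rat.smul_def]
      unfold indFun
      have hcHi : (Nat.card (Hi i) : ℂ) ≠ 0 := by exact_mod_cast Nat.card_pos.ne'
      rw [← Finset.mul_sum]
      push_cast
      field_simp
    rw [key]
    refine Submodule.sum_mem _ fun i _ => Submodule.smul_mem _ _ (Submodule.subset_span ?_)
    exact ⟨Hi i, ψi i, ⟨hPi i, hord i⟩, rfl⟩
  | zero =>
    have : avgF U (0 : G → ℂ) = 0 := by
      funext x
      simp [avgF]
    rw [this]
    exact Submodule.zero_mem _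
  | add f g _ _ hf hg =>
    have : avgF U (f + g) = avgF U f + avgF U g := by
      funext x
      simp only [avgF, Pi.add_apply, Finset.sum_add_distrib, add_div]
    rw [this]
    exact Submodule.add_mem _ hf hg
  | smul c f _ hf =>
    have : avgF U (c • f) = c • avgF U f := by
      funext x
      simp only [avgF, Pi.smul_apply, Rat.smul_def]
      rw [← Finset.mul_sum, mul_div_assoc]
    rw [this]
    exact Submodule.smul_mem _ _ hf

/-! ### The projection -/

theorem span_mono' {P P' : ∀ H : Subgroup G, (H →* ℂˣ) → Prop} (h : ∀ H ψ, P H ψ → P' H ψ)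
    {f : G → ℂ} (hf : f ∈ SpanQ (G := G) P) : f ∈ SpanQ (G := G) P' := by
  unfold SpanQ at hf ⊢
  refine Submodule.span_mono ?_ hf
  rintro _ ⟨H, ψ, h1, rfl⟩
  exact ⟨H, ψ, h H ψ h1, rfl⟩

omit [Fintype G] in
theorem closed_sub {P : ∀ H : Subgroup G, (H →* ℂˣ) → Prop} (hP : ClosedFam P) (p : ℕ) :
    ClosedFam (fun H ψ => P H ψ ∧ ¬ p ∣ orderOf (ψ ^ 2)) := by
  intro H H' ψ ψ' s h hle hs hk hv
  refine ⟨hP H H' ψ ψ' s h.1 hle hs hk hv, fun hpd => h.2 (hpd.trans ?_)⟩
  apply orderOf_dvd_of_pow_eq_one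
  refine MonoidHom.ext fun h' => ?_
  have e := hv ⟨(h' : G), hle h'.2⟩ h' rfl
  have e2 := DFunLike.congr_fun (pow_orderOf_eq_one (ψ ^ 2)) (⟨(h' : G), hle h'.2⟩ : H)
  rw [MonoidHom.pow_apply, MonoidHom.pow_apply, MonoidHom.one_apply] at e2
  rw [MonoidHom.pow_apply, MonoidHom.pow_apply, e, MonoidHom.one_apply]
  have e3 : ∀ (y : ℂˣ) (a b c : ℕ), ((y ^ a) ^ b) ^ c = ((y ^ b) ^ c) ^ a := by
    intro y a b c
    rw [← pow_mul, ← pow_mul, ← pow_mul, ← pow_mul]
    congr 1
    ring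
  rw [e3, e2, one_pow]

/-- **Projection.** -/
theorem proj {N : ℕ} (hN0 : 0 < N) (hN : Fintype.card G ∣ N) (h2 : 2 ∣ N) :
    ∀ (S : Finset ℕ), (∀ p ∈ S, p.Prime ∧ p ∣ N) → ∀ (r : ℕ)
      (P : ∀ H : Subgroup G, (H →* ℂˣ) → Prop), ClosedFam P → ∀ f : G → ℂ,
      f ∈ SpanQ (G := G) P → (∀ x, f x ∈ WW N S r) →
      f ∈ SpanQ (G := G) (fun H ψ => P H ψ ∧ ((orderOf (ψ ^ 2)).primeFactors ∩ S).card ≤ r) := by
  intro S
  induction S using Finset.induction_on with
  | empty =>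
    intro _ r P _ f hf _
    refine span_mono' ?_ hf
    intro H ψ h
    exact ⟨h, by simp⟩
  | insert p S hpS ih =>
    intro hS r P hP f hf hv
    obtain ⟨hp, hpN⟩ := hS p (Finset.mem_insert_self p S)
    have hS' : ∀ p ∈ S, p.Prime ∧ p ∣ N := fun q hq => hS q (Finset.mem_insert_of_mem hq)
    have hζ : IsPrimitiveRoot (Complex.exp (2 * Real.pi * Complex.I / N)) N :=
      Complex.isPrimitiveRoot_exp N hN0.ne'
    obtain ⟨U, k, q, s, m, M, hU0, hU, hfix, hsm, hM, hM2, hav⟩ :=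
      StarkSharp.exists_avg N p hN0 h2 hp hpN
    obtain ⟨h3, h4, h5⟩ := avgF_value hN0 hζ hp hpS hU hU0 hfix (galF_span hN0 hN hζ hf) hv
    have h6 := avg_span (p := p) hN hU hsm hM hM2 hav hP hf
    -- the part without `p`
    have h7 : avgF U f ∈ SpanQ (G := G) (fun H ψ => P H ψ ∧
        ((orderOf (ψ ^ 2)).primeFactors ∩ insert p S).card ≤ r) := by
      refine span_mono' ?_ (ih hS' r _ (closed_sub hP p) (avgF U f) h6 h3)
      rintro H ψ ⟨⟨h8, h9⟩, h10⟩
      refine ⟨h8, le_trans (Finset.card_le_card ?_) h10⟩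
      intro y hy
      rw [Finset.mem_inter, Finset.mem_insert] at hy
      rw [Finset.mem_inter]
      refine ⟨hy.1, ?_⟩
      rcases hy.2 with rfl | h11
      · exact absurd (Nat.dvd_of_mem_primeFactors hy.1) h9
      · exact h11
    have h8 : f - avgF U f ∈ SpanQ (G := G) (fun H ψ => P H ψ ∧
        ((orderOf (ψ ^ 2)).primeFactors ∩ insert p S).card ≤ r) := by
      rcases r with _ | r'
      · rw [h4 rfl]
        exact Submodule.zero_mem _
      · have h9 : f - avgF U f ∈ SpanQ (G := G) P := by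
          apply Submodule.sub_mem _ hf
          exact span_mono' (fun H ψ h => h.1) h6
        refine span_mono' ?_ (ih hS' r' P hP _ h9 (h5 r' rfl))
        rintro H ψ ⟨h10, h11⟩
        refine ⟨h10, ?_⟩
        calc ((orderOf (ψ ^ 2)).primeFactors ∩ insert p S).card
            ≤ (insert p ((orderOf (ψ ^ 2)).primeFactors ∩ S)).card := by
              apply Finset.card_le_card
              intro y hy
              rw [Finset.mem_inter, Finset.mem_insert] at hy
              rw [Finset.mem_insert, Finset.mem_inter]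
              rcases hy.2 with h12 | h12
              · exact Or.inl h12
              · exact Or.inr ⟨hy.1, h12⟩
          _ ≤ ((orderOf (ψ ^ 2)).primeFactors ∩ S).card + 1 := Finset.card_insert_le _ _
          _ ≤ r' + 1 := by omega
    have h9 : f = avgF U f + (f - avgF U f) := by
      rw [add_sub_cancel]
    rw [h9]
    exact Submodule.add_mem _ h7 h8

/-! ### Few primes -/

/-- The `ℚ`-span in `ℂ` of the roots of unity whose order has at most `r` prime factors. -/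
noncomputable def fewSpan (r : ℕ) : Submodule ℚ ℂ :=
  Submodule.span ℚ {z : ℂ | ∃ k : ℕ, 0 < k ∧ k.primeFactors.card ≤ r ∧ z ^ k = 1}

theorem fewSpan_WW {r : ℕ} {w : ℂ} (hw : w ∈ fewSpan r) :
    ∃ k : ℕ, 0 < k ∧ ∀ (N : ℕ) (S : Finset ℕ), k ∣ N → w ∈ WW N S r := by
  unfold fewSpan at hw
  induction hw using Submodule.span_induction with
  | mem z hz =>
    obtain ⟨k, hk, hr, hzk⟩ := hz
    refine ⟨k, hk, fun N S hkN => Submodule.subset_span ⟨?_, ?_⟩⟩
    · obtain ⟨c, rfl⟩ := hkN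
      rw [pow_mul, hzk, one_pow]
    · have h1 : orderOf (z ^ 2) ∣ k := by
        apply orderOf_dvd_of_pow_eq_one
        rw [← pow_mul, mul_comm, pow_mul, hzk, one_pow]
      exact le_trans (Finset.card_le_card (Finset.inter_subset_left.trans
        (Nat.primeFactors_mono h1 hk.ne'))) hr
  | zero => exact ⟨1, one_pos, fun N S _ => Submodule.zero_mem _⟩
  | add x y _ _ hx hy =>
    obtain ⟨k, hk, h1⟩ := hx
    obtain ⟨l, hl, h2⟩ := hy
    exact ⟨k * l, Nat.mul_pos hk hl, fun N S h => Submodule.add_mem _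
      (h1 N S ((dvd_mul_right k l).trans h)) (h2 N S ((dvd_mul_left l k).trans h))⟩
  | smul q x _ hx =>
    obtain ⟨k, hk, h1⟩ := hx
    exact ⟨k, hk, fun N S h => Submodule.smul_mem _ _ (h1 N S h)⟩

/-- **Projection, final form.** -/
theorem proj_few {P : ∀ H : Subgroup G, (H →* ℂˣ) → Prop} (hP : ClosedFam P) {f : G → ℂ}
    (hf : f ∈ SpanQ (G := G) P) {r : ℕ} (hr : ∀ x, f x ∈ fewSpan r) :
    f ∈ SpanQ (G := G) (fun H ψ => P H ψ ∧ (orderOf (ψ ^ 2)).primeFactors.card ≤ r) := by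
  choose k hk0 hk using fun x => fewSpan_WW (hr x)
  set N : ℕ := 2 * Fintype.card G * ∏ x, k x with hN
  have hN0 : 0 < N := by
    have h1 : 0 < Fintype.card G := Fintype.card_pos
    have h2 : 0 < ∏ x, k x := Finset.prod_pos fun x _ => hk0 x
    positivity
  have hcard : Fintype.card G ∣ N := ⟨2 * ∏ x, k x, by rw [hN]; ring⟩
  have h2 : 2 ∣ N := ⟨Fintype.card G * ∏ x, k x, by rw [hN]; ring⟩
  have hkN : ∀ x, k x ∣ N := fun x =>
    (Finset.dvd_prod_of_mem k (Finset.mem_univ x)).trans (dvd_mul_left _ _)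
  have h3 := proj hN0 hcard h2 N.primeFactors
    (fun p hp => ⟨Nat.prime_of_mem_primeFactors hp, Nat.dvd_of_mem_primeFactors hp⟩) r P hP f hf
    (fun x => hk x N _ (hkN x))
  refine span_mono' ?_ h3
  rintro H ψ ⟨h4, h5⟩
  refine ⟨h4, ?_⟩
  have h6 : (orderOf (ψ ^ 2)).primeFactors ⊆ N.primeFactors := by
    apply Nat.primeFactors_mono _ hN0.ne'
    apply orderOf_dvd_of_pow_eq_one
    exact psi_sq_pow_card hcard ψ
  rwa [Finset.inter_eq_left.2 h6] at h5

/-- Roots of unity whose square has an order with at most `r` prime factors. -/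
theorem root_mem {r : ℕ} {z : ℂ} {n : ℕ} (hn : 0 < n) (hz : z ^ n = 1)
    (hr : (orderOf (z ^ 2)).primeFactors.card ≤ r) : z ∈ fewSpan r := by
  set e := orderOf (z ^ 2) with he
  have he0 : 0 < e := by
    rw [he, orderOf_pos_iff, isOfFinOrder_iff_pow_eq_one]
    exact ⟨n, hn, by rw [← pow_mul, mul_comm, pow_mul, hz, one_pow]⟩
  have h1 : z ^ (2 * e) = 1 := by
    rw [pow_mul]
    exact pow_orderOf_eq_one _
  rcases Nat.even_or_odd e with h2 | h2
  · refine Submodule.subset_span ⟨2 * e, by positivity, ?_, h1⟩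
    have h3 : (2 * e).primeFactors = e.primeFactors := by
      rw [Nat.primeFactors_mul two_ne_zero he0.ne', Nat.prime_two.primeFactors]
      apply Finset.union_eq_right.2
      intro y hy
      rw [Finset.mem_singleton] at hy
      subst hy
      exact Nat.mem_primeFactors.2 ⟨Nat.prime_two, even_iff_two_dvd.1 h2, he0.ne'⟩
    rw [h3]
    exact hr
  · have h4 : z ^ e = 1 ∨ z ^ e = -1 := by
      have h5 : z ^ e * z ^ e = 1 := by
        rw [← pow_add, ← two_mul]
        exact h1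
      exact mul_self_eq_one_iff.1 h5
    rcases h4 with h4 | h4
    · exact Submodule.subset_span ⟨e, he0, hr, h4⟩
    · have h5 : -z ∈ fewSpan r := by
        refine Submodule.subset_span ⟨e, he0, hr, ?_⟩
        rw [h2.neg_pow, h4, neg_neg]
      have h6 := Submodule.neg_mem _ h5
      rwa [neg_neg] at h6

/-- The values of a combination of characters induced from linear characters with few primes. -/
theorem value_mem {P : ∀ H : Subgroup G, (H →* ℂˣ) → Prop} {r : ℕ}
    (hP : ∀ H ψ, P H ψ → (orderOf (ψ ^ 2)).primeFactors.card ≤ r) {f : G → ℂ}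
    (hf : f ∈ SpanQ (G := G) P) (x : G) : f x ∈ fewSpan r := by
  unfold SpanQ at hf
  induction hf using Submodule.span_induction with
  | mem f hf =>
    obtain ⟨H, ψ, hψ, rfl⟩ := hf
    have hψ0 : orderOf (ψ ^ 2) ≠ 0 := by
      exact (orderOf_pos_iff.2 (isOfFinOrder_iff_pow_eq_one.2
        ⟨Fintype.card G, Fintype.card_pos, psi_sq_pow_card dvd_rfl ψ⟩)).ne'
    have e : indFun H (extZ ψ) x = ((Nat.card H : ℚ)⁻¹) •
        ∑ y : G, if y⁻¹ * x * y ∈ H then extZ ψ (y⁻¹ * x * y) else 0 := by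
      rw [Rat.smul_def]
      unfold indFun
      push_cast
      ring
    rw [e]
    refine Submodule.smul_mem _ _ (Submodule.sum_mem _ fun y _ => ?_)
    split_ifs with h
    · unfold extZ
      rw [dif_pos h]
      refine root_mem (n := Fintype.card G) Fintype.card_pos (val_pow_card dvd_rfl ψ _) ?_
      refine le_trans (Finset.card_le_card (Nat.primeFactors_mono ?_ hψ0)) (hP H ψ hψ)
      apply orderOf_dvd_of_pow_eq_one
      have h3 := DFunLike.congr_fun (pow_orderOf_eq_one (ψ ^ 2)) (⟨y⁻¹ * x * y, h⟩ : H)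
      rw [MonoidHom.pow_apply, MonoidHom.pow_apply, MonoidHom.one_apply] at h3
      rw [← Units.val_pow_eq_pow_val, ← Units.val_pow_eq_pow_val, h3, Units.val_one]
    · exact Submodule.zero_mem _
  | zero => exact Submodule.zero_mem _
  | add f g _ _ hf hg => exact Submodule.add_mem _ hf hg
  | smul q f _ hf => exact Submodule.smul_mem _ _ hf

end StarkProj
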