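import Pool.Agent.Lib_helper3.SM.Mixed

/-!
# Rational valued virtual characters are constant on the generators of a cyclic subgroup
-/

open scoped Classical

namespace StarkSharp

variable {G : Type} [Group G] [Fintype G]

/-- Fourier coefficients on the cyclic group generated by `g`. -/
noncomputable def cycCoef (f : G → ℂ) (g : G) (ω : ℂ) (k : ℕ) : ℂ :=
  (∑ b ∈ Finset.range (orderOf g), f (g ^ b) * (ω ^ (k * b))⁻¹) / (orderOf g : ℂ)

omit [Fintype G] in
theorem sum_root {n : ℕ} (hn : 0 < n) {ω : ℂ} (hω : IsPrimitiveRoot ω n) (a b : ℕ) (ha : a < n)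
    (hb : b < n) : ∑ k ∈ Finset.range n, (ω ^ (k * b))⁻¹ * ω ^ (k * a) = if b = a then (n : ℂ)
      else 0 := by
  have hω0 : ω ≠ 0 := hω.ne_zero hn.ne'
  split_ifs with h
  · subst h
    rw [Finset.sum_congr rfl (g := fun _ => (1 : ℂ))]
    · simp
    · intro k _
      exact inv_mul_cancel₀ (pow_ne_zero _ hω0)
  · set z : ℂ := (ω ^ b)⁻¹ * ω ^ a with hz
    have e : ∀ k, (ω ^ (k * b))⁻¹ * ω ^ (k * a) = z ^ k := by
      intro k
      rw [hz, mul_pow, inv_pow, ← pow_mul, ← pow_mul, mul_comm k b, mul_comm k a]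
    rw [Finset.sum_congr rfl fun k _ => e k]
    have hz1 : z ≠ 1 := by
      intro h1
      apply h
      have h2 : ω ^ a = ω ^ b := by
        rw [hz] at h1
        field_simp at h1
        exact h1
      exact (hω.pow_inj ha hb h2).symm
    have hzn : z ^ n = 1 := by
      rw [hz, mul_pow, inv_pow, ← pow_mul, ← pow_mul, mul_comm b n, mul_comm a n, pow_mul,
        pow_mul, hω.pow_eq_one, one_pow, one_pow, inv_one, one_mul]
    have h3 := geom_sum_mul z n
    rw [hzn, sub_self] at h3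
    rcases mul_eq_zero.1 h3 with h4 | h4
    · exact h4
    · exact absurd (sub_eq_zero.1 h4) hz1

theorem cyc_inversion (f : G → ℂ) (g : G) {ω : ℂ} (hω : IsPrimitiveRoot ω (orderOf g)) (a : ℕ) :
    f (g ^ a) = ∑ k ∈ Finset.range (orderOf g), cycCoef f g ω k * (ω ^ a) ^ k := by
  have hn : 0 < orderOf g := orderOf_pos g
  have hnC : (orderOf g : ℂ) ≠ 0 := by exact_mod_cast hn.ne'
  -- reduce to `a < orderOf g`
  have e1 : g ^ a = g ^ (a % orderOf g) := (pow_mod_orderOf g a).symm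
  have e2 : ω ^ a = ω ^ (a % orderOf g) := by
    conv_lhs => rw [← Nat.mod_add_div a (orderOf g), pow_add, pow_mul, hω.pow_eq_one, one_pow,
      mul_one]
  rw [e1, e2]
  have hlt : a % orderOf g < orderOf g := Nat.mod_lt _ hn
  generalize a % orderOf g = c at hlt
  have h1 : ∀ k ∈ Finset.range (orderOf g), cycCoef f g ω k * (ω ^ c) ^ k =
      ∑ b ∈ Finset.range (orderOf g),
        f (g ^ b) * ((ω ^ (k * b))⁻¹ * ω ^ (k * c)) / (orderOf g : ℂ) := by
    intro k _
    unfold cycCoef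
    rw [div_mul_eq_mul_div, Finset.sum_mul, Finset.sum_div]
    refine Finset.sum_congr rfl fun b _ => ?_
    rw [← pow_mul, mul_comm c k]
    ring
  rw [Finset.sum_congr rfl h1, Finset.sum_comm]
  have h2 : ∀ b ∈ Finset.range (orderOf g), ∑ k ∈ Finset.range (orderOf g),
      f (g ^ b) * ((ω ^ (k * b))⁻¹ * ω ^ (k * c)) / (orderOf g : ℂ) =
        if b = c then f (g ^ c) else 0 := by
    intro b hb
    rw [← Finset.sum_div, ← Finset.mul_sum, sum_root hn hω c b hlt (Finset.mem_range.1 hb)]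
    split_ifs with h
    · subst h
      field_simp
    · simp
  rw [Finset.sum_congr rfl h2, Finset.sum_ite_eq' (Finset.range (orderOf g)) c]
  rw [if_pos (Finset.mem_range.2 hlt)]

/-- the coefficients are multiplicities -/
theorem cycCoef_eq_mlt (f : G → ℂ) (g : G) {ω : ℂˣ} (hω : ω ^ (orderOf g) = 1) (k : ℕ) :
    ∃ ζ : Subgroup.zpowers g →* ℂˣ, cycCoef f g (ω : ℂ) k = mlt (Subgroup.zpowers g) f ζ := by
  have hgen : ∀ x : Subgroup.zpowers g, x ∈ Subgroup.zpowers
      (⟨g, Subgroup.mem_zpowers g⟩ : Subgroup.zpowers g) := by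
    rintro ⟨x, hx⟩
    obtain ⟨i, rfl⟩ := hx
    exact ⟨i, by ext; simp⟩
  have hord : orderOf (ω ^ k) ∣ orderOf (⟨g, Subgroup.mem_zpowers g⟩ : Subgroup.zpowers g) := by
    rw [Subgroup.orderOf_mk]
    apply orderOf_dvd_of_pow_eq_one
    rw [← pow_mul, mul_comm, pow_mul, hω, one_pow]
  refine ⟨monoidHomOfForallMemZpowers hgen hord, ?_⟩
  unfold cycCoef mlt
  rw [Nat.card_zpowers]
  congr 1
  rw [Finset.sum_range]
  refine Fintype.sum_equiv (finEquivZPowers (isOfFinOrder_of_finite g)) _ _ fun b => ?_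
  have e : ((finEquivZPowers (isOfFinOrder_of_finite g) b : Subgroup.zpowers g) : G) =
      g ^ (b : ℕ) := rfl
  have e' : (finEquivZPowers (isOfFinOrder_of_finite g) b : Subgroup.zpowers g) =
      (⟨g, Subgroup.mem_zpowers g⟩ : Subgroup.zpowers g) ^ (b : ℕ) := by
    apply Subtype.ext
    rw [e]
    rfl
  have e2 : monoidHomOfForallMemZpowers hgen hord
      (finEquivZPowers (isOfFinOrder_of_finite g) b : Subgroup.zpowers g) = ω ^ (k * b) := by
    rw [e', map_pow, monoidHomOfForallMemZpowers_apply_gen, pow_mul]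
  show f (g ^ (b : ℕ)) * (((ω : ℂ) ^ (k * (b : ℕ)))⁻¹) =
    f ((finEquivZPowers (isOfFinOrder_of_finite g) b : Subgroup.zpowers g) : G) * _
  rw [e2, e, Units.val_pow_eq_pow_val]

/-- A rational valued virtual character takes the same value at `g` and `g^a`, `a` prime to the
order of `g`. -/
theorem rat_pow {f : G → ℂ} (hf : f ∈ virtualChars G) (hr : ∀ g, ∃ r : ℚ, f g = r) (g : G)
    {a : ℕ} (ha : a.Coprime (orderOf g)) : f (g ^ a) = f g := by
  have hn : 0 < orderOf g := orderOf_pos g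
  set n := orderOf g with hnn
  set ω : ℂ := Complex.exp (2 * Real.pi * Complex.I / n) with hω
  have hprim : IsPrimitiveRoot ω n := Complex.isPrimitiveRoot_exp n hn.ne'
  have hω0 : ω ≠ 0 := hprim.ne_zero hn.ne'
  have hint : ∀ k, ∃ m : ℤ, cycCoef f g ω k = m := by
    intro k
    obtain ⟨ζ, hζ⟩ := cycCoef_eq_mlt f g (ω := Units.mk0 ω hω0) (by
      apply Units.ext
      rw [Units.val_pow_eq_pow_val, Units.val_mk0, Units.val_one]
      exact hprim.pow_eq_one) k
    rw [Units.val_mk0] at hζ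
    rw [hζ]
    exact int_mlt_virtual _ ζ f hf
  choose m hm using hint
  obtain ⟨r, hr⟩ := hr g
  set Q : Polynomial ℚ := (∑ k ∈ Finset.range n, Polynomial.C (m k : ℚ) * Polynomial.X ^ k)
    - Polynomial.C r with hQ
  have hev : ∀ z : ℂ, Polynomial.aeval z Q = (∑ k ∈ Finset.range n, (m k : ℂ) * z ^ k) - r := by
    intro z
    rw [hQ]
    simp
  have hval : ∀ b : ℕ, Polynomial.aeval (ω ^ b) Q = f (g ^ b) - r := by
    intro b
    rw [hev, cyc_inversion f g hprim b]
    congr 1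
    refine Finset.sum_congr rfl fun k _ => ?_
    rw [hm]
  have h0 : Polynomial.aeval ω Q = 0 := by
    have := hval 1
    rw [pow_one, pow_one, hr, sub_self] at this
    exact this
  have hprim2 : IsPrimitiveRoot (ω ^ a) n := hprim.pow_of_coprime a ha
  have h2 : minpoly ℚ ω = minpoly ℚ (ω ^ a) := by
    rw [← Polynomial.cyclotomic_eq_minpoly_rat hprim hn,
      ← Polynomial.cyclotomic_eq_minpoly_rat hprim2 hn]
  have h3 : Polynomial.aeval (ω ^ a) Q = 0 := by
    have h4 := minpoly.dvd ℚ ω h0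
    rw [h2] at h4
    obtain ⟨T, hT⟩ := h4
    rw [hT, map_mul, minpoly.aeval, zero_mul]
  rw [hval, sub_eq_zero] at h3
  rw [h3, hr]

theorem mixD_rat {r : ℕ} {f : G → ℂ} (hf : f ∈ virtualChars G) (hr : ∀ g, ∃ r : ℚ, f g = r)
    (g : G) {u : Fin (r + 1) → ℕ} (hu : Adm (orderOf g) u) : mixD f g u = 0 :=
  mixD_const hu fun _ ha => rat_pow hf hr g ha

end StarkSharp
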